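import Pool.Agent.UBC.Defs
import Pool.Agent.UBC.Defs2

/-!
# Definitions for quadratic periodic points
-/

set_option autoImplicit false

namespace UBQ

open Height NumberField IsDedekindDomain Polynomial UBC

/-- in the field extension `E` of `K`: `x` and `y` are distinct periodic points of the map
`z ↦ H(z ^ r) + c` with sum `s` and product `p` -/
def PairIn {K : Type*} (E : Type*) [Field K] [Field E] [Algebra K E] (r : ℕ) (H : K[X])
    (c s p : K) (x y : E) : Prop :=
  x ≠ y ∧ PerPt (fam r (H.map (algebraMap K E)) (algebraMap K E c)) x ∧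
    PerPt (fam r (H.map (algebraMap K E)) (algebraMap K E c)) y ∧
    x + y = algebraMap K E s ∧ x * y = algebraMap K E p

/-- `s` and `p` are the sum and the product of two distinct periodic points of the map
`z ↦ H(z ^ r) + c` -/
def QPair {K : Type*} [Field K] (r : ℕ) (H : K[X]) (c s p : K) : Prop :=
  ∃ x y : AlgebraicClosure K, PairIn (AlgebraicClosure K) r H c s p x y

/-- the places where `r * m` is not a unit or `H` is not integral -/
def badPl {K : Type*} [Field K] [NumberField K] (r m : ℕ) (H : K[X]) :
    Set (HeightOneSpectrum (𝓞 K)) :=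
  {v | v.valuation K ((r * m : ℕ) : K) ≠ 1 ∨ ∃ i, 1 < v.valuation K (H.coeff i)}

/-- the coordinate that distinguishes pairs with the same value of `s ^ 2 / p` -/
noncomputable def key {K : Type*} [Field K] (s p : K) : K :=
  open Classical in if s = 0 then p else s

/-- the set of ratios -/
def TSet (K : Type*) [Field K] [NumberField K] (r n : ℕ) (S : Set (HeightOneSpectrum (𝓞 K))) :
    Set K :=
  {t : K | ∀ ζ ζ' : K, ζ ^ r = 1 → ζ ≠ 1 → ζ' ^ r = 1 → ζ' ≠ 1 →
    t ≠ ζ ∧ Sel n S ((t - ζ) / (t - ζ'))}

end UBQ
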