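import Pool.Agent.UBQ.Pairs

/-!
# From pairs to periodic points of degree at most two
-/

set_option autoImplicit false

universe u

namespace UBQ

open NumberField Polynomial UBC

namespace FinalBAux

/-- the polynomial of the `k`-th iterate -/
noncomputable def itp {K : Type*} [Field K] (g : K[X]) : ℕ → K[X]
  | 0 => X
  | k + 1 => g.comp (itp g k)

theorem aeval_fam {K E : Type*} [Field K] [Field E] [Algebra K E] (r : ℕ) (H : K[X]) (c : K)
    (z : E) : aeval z (H.comp (X ^ r) + C c) =
      fam r (H.map (algebraMap K E)) (algebraMap K E c) z := by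
  unfold fam
  rw [map_add, aeval_C, aeval_comp, map_pow, aeval_X, eval_map_algebraMap]

theorem aeval_itp {K E : Type*} [Field K] [Field E] [Algebra K E] (r : ℕ) (H : K[X]) (c : K)
    (z : E) (k : ℕ) : aeval z (itp (H.comp (X ^ r) + C c) k) =
      (fam r (H.map (algebraMap K E)) (algebraMap K E c))^[k] z := by
  induction k with
  | zero => simp [itp]
  | succ k ih =>
    rw [Function.iterate_succ_apply', ← ih, ← aeval_fam]
    show aeval z ((H.comp (X ^ r) + C c).comp (itp (H.comp (X ^ r) + C c) k)) = _
    rw [aeval_comp]

/-- a root of the minimal polynomial of a periodic point is periodic -/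
theorem perPt_of_root {K E : Type*} [Field K] [Field E] [Algebra K E] (r : ℕ) (H : K[X]) (c : K)
    {x y : E} (hx : PerPt (fam r (H.map (algebraMap K E)) (algebraMap K E c)) x)
    (hy : aeval y (minpoly K x) = 0) :
    PerPt (fam r (H.map (algebraMap K E)) (algebraMap K E c)) y := by
  obtain ⟨k, hk, hx⟩ := hx
  refine ⟨k, hk, ?_⟩
  have h1 : aeval x (itp (H.comp (X ^ r) + C c) k - X) = 0 := by
    rw [map_sub, aeval_itp, aeval_X, hx, sub_self]
  obtain ⟨q, hq⟩ := minpoly.dvd K x h1
  have h2 : aeval y (itp (H.comp (X ^ r) + C c) k - X) = 0 := by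
    rw [hq, map_mul, hy, zero_mul]
  rw [map_sub, aeval_itp, aeval_X, sub_eq_zero] at h2
  exact h2

theorem aeval_two {K E : Type*} [Field K] [Field E] [Algebra K E] {q : K[X]} (hq : q.Monic)
    (h2 : q.natDegree = 2) (y : E) :
    aeval y q = y ^ 2 + algebraMap K E (q.coeff 1) * y + algebraMap K E (q.coeff 0) := by
  have hc : q.coeff 2 = 1 := by
    have := hq.coeff_natDegree
    rwa [h2] at this
  rw [aeval_eq_sum_range, h2, Finset.sum_range_succ, Finset.sum_range_succ, Finset.sum_range_one,
    hc]
  simp only [Algebra.smul_def, map_one]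
  ring

end FinalBAux

open FinalBAux

/-- Q9b.  Bound `B + 1 + 2 * B`.
Let `x ∈ P` with `natDegree (minpoly K x) = 2`, `minpoly K x = X ^ 2 - s X + p`.  Then `y = s - x` is
the other root, it is different from `x` (separable), and it is periodic because `x` is a root of
the polynomial over `K` given by the `k`-th iterate minus `X`, so its minimal polynomial divides
this polynomial.  So `(s, p)` is a pair and each pair comes from at most two `x`: at most `2 B` such
`x`.  The others are in `K` (degree `1`); if `x0` is one of them, then every other such `x` gives the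
pair `(x + x0, x x0)` and these are different: at most `B + 1`. -/
theorem card_le_of_pairs (K : Type u) [Field K] [NumberField K] {r : ℕ} (H : K[X]) (c : K) (B : ℕ)
    (hB : ∀ P : Finset (K × K), (∀ q ∈ P, QPair r H c q.1 q.2) → P.card ≤ B)
    (P : Finset (AlgebraicClosure K))
    (hP : ∀ x ∈ P, (minpoly K x).natDegree ≤ 2 ∧
        PerPt (fam r (H.map (algebraMap K (AlgebraicClosure K))) (algebraMap K _ c)) x) :
    P.card ≤ (B + 1) + 2 * B := by
  classical
  have hint : ∀ x : (AlgebraicClosure K), IsIntegral K x := fun x => Algebra.IsIntegral.isIntegral x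
  rw [← Finset.card_filter_add_card_filter_not (s := P)
    (fun x : (AlgebraicClosure K) => (minpoly K x).natDegree = 1)]
  refine Nat.add_le_add ?_ ?_
  · -- points in `K`
    set P1 := P.filter (fun x : (AlgebraicClosure K) => (minpoly K x).natDegree = 1) with hP1
    rcases P1.eq_empty_or_nonempty with h0 | ⟨x0, hx0⟩
    · rw [h0, Finset.card_empty]
      exact Nat.zero_le _
    have hin : ∀ x ∈ P1, ∃ a : K, algebraMap K (AlgebraicClosure K) a = x := by
      intro x hx
      have h1 := (Finset.mem_filter.mp hx).2
      have h2 := minpoly.mem_range_of_degree_eq_one K x (by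
        rw [degree_eq_natDegree (minpoly.ne_zero (hint x)), h1]
        rfl)
      exact h2
    obtain ⟨a0, ha0⟩ := hin x0 hx0
    choose! g hg using hin
    have hcard : P1.card = (P1.erase x0).card + 1 := by
      rw [Finset.card_erase_of_mem hx0]
      have := Finset.card_pos.mpr ⟨x0, hx0⟩
      omega
    rw [hcard]
    refine Nat.add_le_add_right ?_ 1
    have hinj : Set.InjOn (fun x : (AlgebraicClosure K) => (g x + a0, g x * a0)) (P1.erase x0 : Finset (AlgebraicClosure K)) := by
      intro x hx x' hx' hxx
      have e1 : g x + a0 = g x' + a0 := (Prod.ext_iff.mp hxx).1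
      have e2 : g x = g x' := add_right_cancel e1
      have m1 := Finset.mem_of_mem_erase (Finset.mem_coe.mp hx)
      have m2 := Finset.mem_of_mem_erase (Finset.mem_coe.mp hx')
      rw [← hg x m1, ← hg x' m2, e2]
    rw [← Finset.card_image_of_injOn hinj]
    apply hB
    intro q hq
    rw [Finset.mem_image] at hq
    obtain ⟨x, hx, rfl⟩ := hq
    have m1 := Finset.mem_of_mem_erase hx
    have m2 := Finset.ne_of_mem_erase hx
    refine ⟨x, x0, m2, (hP x (Finset.mem_filter.mp m1).1).2,
      (hP x0 (Finset.mem_filter.mp hx0).1).2, ?_, ?_⟩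
    · show x + x0 = algebraMap K (AlgebraicClosure K) (g x + a0)
      rw [map_add, hg x m1, ha0]
    · show x * x0 = algebraMap K (AlgebraicClosure K) (g x * a0)
      rw [map_mul, hg x m1, ha0]
  · -- points of degree two
    set P2 := P.filter (fun x : (AlgebraicClosure K) => ¬ (minpoly K x).natDegree = 1) with hP2
    have hdeg : ∀ x ∈ P2, (minpoly K x).natDegree = 2 := by
      intro x hx
      have h1 := Finset.mem_filter.mp hx
      have h2 := (hP x h1.1).1
      have h3 := minpoly.natDegree_pos (hint x)
      have h4 := h1.2
      omega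
    have heq : ∀ x ∈ P2, x ^ 2 + algebraMap K (AlgebraicClosure K) ((minpoly K x).coeff 1) * x +
        algebraMap K (AlgebraicClosure K) ((minpoly K x).coeff 0) = 0 := by
      intro x hx
      rw [← aeval_two (minpoly.monic (hint x)) (hdeg x hx)]
      exact minpoly.aeval K x
    set φ : (AlgebraicClosure K) → K × K := fun x => (-(minpoly K x).coeff 1, (minpoly K x).coeff 0) with hφ
    have h1 : P2.card ≤ 2 * (P2.image φ).card := by
      apply Finset.card_le_mul_card_image
      intro q hq
      rw [Finset.mem_image] at hq
      obtain ⟨x, hx, rfl⟩ := hq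
      have hsub : P2.filter (fun x' => φ x' = φ x) ⊆
          ({x, -algebraMap K (AlgebraicClosure K) ((minpoly K x).coeff 1) - x} : Finset (AlgebraicClosure K)) := by
        intro x' hx'
        obtain ⟨m1, m2⟩ := Finset.mem_filter.mp hx'
        have e1 : (minpoly K x').coeff 1 = (minpoly K x).coeff 1 :=
          neg_injective (Prod.ext_iff.mp m2).1
        have e2 : (minpoly K x').coeff 0 = (minpoly K x).coeff 0 := (Prod.ext_iff.mp m2).2
        have e3 := heq x' m1
        have e4 := heq x hx
        rw [e1, e2] at e3
        have e5 : (x' - x) * (x' - (-algebraMap K (AlgebraicClosure K) ((minpoly K x).coeff 1) - x)) = 0 := by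
          linear_combination e3 - e4
        rw [Finset.mem_insert, Finset.mem_singleton]
        rcases mul_eq_zero.mp e5 with e6 | e6
        · exact Or.inl (sub_eq_zero.mp e6)
        · exact Or.inr (sub_eq_zero.mp e6)
      exact (Finset.card_le_card hsub).trans Finset.card_le_two
    refine h1.trans (Nat.mul_le_mul_left 2 ?_)
    apply hB
    intro q hq
    rw [Finset.mem_image] at hq
    obtain ⟨x, hx, rfl⟩ := hq
    have hxP := (Finset.mem_filter.mp hx).1
    have e1 := heq x hx
    refine ⟨x, -algebraMap K (AlgebraicClosure K) ((minpoly K x).coeff 1) - x, ?_, (hP x hxP).2, ?_, ?_, ?_⟩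
    · intro hne
      have e2 : x = algebraMap K (AlgebraicClosure K) (-(minpoly K x).coeff 1 / 2) := by
        have e3 : (2 : (AlgebraicClosure K)) ≠ 0 := two_ne_zero
        have e4 : algebraMap K (AlgebraicClosure K) (-(minpoly K x).coeff 1 / 2) =
          -algebraMap K (AlgebraicClosure K) ((minpoly K x).coeff 1) / 2 := by
          rw [map_div₀, map_neg, map_ofNat]
        rw [e4, eq_div_iff e3]
        linear_combination hne
      have e5 := hdeg x hx
      have e6 : minpoly K x = X - C (-(minpoly K x).coeff 1 / 2) := by
        conv_lhs => rw [e2]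
        exact minpoly.eq_X_sub_C _ _
      rw [e6, natDegree_X_sub_C] at e5
      omega
    · apply perPt_of_root r H c (hP x hxP).2
      rw [aeval_two (minpoly.monic (hint x)) (hdeg x hx)]
      linear_combination e1
    · show x + (-algebraMap K (AlgebraicClosure K) ((minpoly K x).coeff 1) - x) =
        algebraMap K (AlgebraicClosure K) (-(minpoly K x).coeff 1)
      rw [map_neg]
      ring
    · show x * (-algebraMap K (AlgebraicClosure K) ((minpoly K x).coeff 1) - x) =
        algebraMap K (AlgebraicClosure K) ((minpoly K x).coeff 0)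
      linear_combination -e1

end UBQ
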