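import Pool.Agent.UBQ.FinalA
import Pool.Agent.UBQ.FinalB

/-!
# Uniform bound for periodic points of degree at most two
-/

set_option autoImplicit false

universe u

namespace UBQ

open Height NumberField IsDedekindDomain Polynomial UBC

theorem quadratic_all (K : Type u) [Field K] [NumberField K] {r : ℕ} (hr : 6 ≤ r) (H : K[X])
    (hH : H.natDegree ≠ 0) :
    ∃ B : ℕ, ∀ c : K, ∀ P : Finset (AlgebraicClosure K),
      (∀ x ∈ P, (minpoly K x).natDegree ≤ 2 ∧
        PerPt (fam r (H.map (algebraMap K (AlgebraicClosure K))) (algebraMap K _ c)) x) →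
      P.card ≤ B := by
  obtain ⟨B, hB⟩ := pairs_all K hr H hH
  exact ⟨(B + 1) + 2 * B, fun c P hP => card_le_of_pairs K H c B (hB c) P hP⟩

end UBQ
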