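import Pool.Agent.UBQ.Pairs

/-!
# A bounded number of pairs, general polynomial `H`
-/

set_option autoImplicit false

universe u

namespace UBQ

open Height NumberField IsDedekindDomain Polynomial UBC

namespace FinalAAux

/-- conjugation of the maps -/
theorem semiconj_scale {K L E F : Type*} [Field K] [Field L] [Field E] [Field F]
    (φ : K →+* L) (ψ : L →+* F) (κ : K →+* E) (ι : E →+* F) (hc : ι.comp κ = ψ.comp φ)
    (r : ℕ) (H : K[X]) (c : K) (z : L) (hz0 : z ≠ 0) :
    Function.Semiconj (fun u : E => ψ z * ι u) (fam r (H.map κ) (κ c))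
      (fam r ((C z * (H.map φ).comp (C (z⁻¹ ^ r) * X)).map ψ) (ψ (z * φ c))) := by
  intro u
  have hψz : ψ z ≠ 0 := (_root_.map_ne_zero ψ).2 hz0
  have hcc : ∀ a : K, ι (κ a) = ψ (φ a) := fun a => RingHom.congr_fun hc a
  simp only [fam]
  rw [Polynomial.map_mul, map_C, map_comp, Polynomial.map_mul, map_C, map_X, Polynomial.map_map,
    eval_mul, eval_C, eval_comp, eval_mul, eval_C, eval_X, map_add, mul_add, hcc, map_mul]
  congr 2
  have e : ψ (z⁻¹ ^ r) * (ψ z * ι u) ^ r = ι (u ^ r) := by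
    rw [map_pow, map_inv₀, ← mul_pow, ← mul_assoc, inv_mul_cancel₀ hψz, one_mul, map_pow]
  rw [e, eval_map, eval_map, hom_eval₂, hc]

theorem qpair_scale {K L : Type u} [Field K] [Field L] [Algebra K L] {r : ℕ} {H : K[X]}
    {c s p : K} {z : L} (hz0 : z ≠ 0) (h : QPair r H c s p) :
    QPair r (C z * (H.map (algebraMap K L)).comp (C (z⁻¹ ^ r) * X)) (z * algebraMap K L c)
      (z * algebraMap K L s) (z ^ 2 * algebraMap K L p) := by
  obtain ⟨x, y, hxy, hx, hy, hs, hp⟩ := h
  set ι : AlgebraicClosure K →ₐ[K] AlgebraicClosure L := IsAlgClosed.lift with hι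
  set ψ : L →+* AlgebraicClosure L := algebraMap L (AlgebraicClosure L) with hψ
  have hcc : ∀ a : K, ι (algebraMap K (AlgebraicClosure K) a) = ψ (algebraMap K L a) := by
    intro a
    rw [AlgHom.commutes]
    exact IsScalarTower.algebraMap_apply K L (AlgebraicClosure L) a
  have hcomp : (ι : AlgebraicClosure K →+* AlgebraicClosure L).comp
      (algebraMap K (AlgebraicClosure K)) = ψ.comp (algebraMap K L) := RingHom.ext hcc
  have hψz : ψ z ≠ 0 := (_root_.map_ne_zero ψ).2 hz0
  have hsemi := semiconj_scale (algebraMap K L) ψ (algebraMap K (AlgebraicClosure K))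
    (ι : AlgebraicClosure K →+* AlgebraicClosure L) hcomp r H c z hz0
  refine ⟨ψ z * ι x, ψ z * ι y, ?_, ?_, ?_, ?_, ?_⟩
  · intro h
    exact hxy (ι.injective (mul_left_cancel₀ hψz h))
  · exact FinalPerSAux.PerPt.semiconj hsemi hx
  · exact FinalPerSAux.PerPt.semiconj hsemi hy
  · rw [← mul_add, ← map_add, hs, hcc, ← map_mul]
  · have e : ψ z * ι x * (ψ z * ι y) = ψ z ^ 2 * ι (x * y) := by
      rw [map_mul]; ring
    rw [e, hp, hcc, ← map_pow, ← map_mul]

end FinalAAux

open FinalAAux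

/-- Q9a.  See the proof of `uniform_per_S` in UBC/FinalPerS.lean: let `a` be the leading coefficient
of `H`, `m` its degree, `n = r m - 1`, and `L` a splitting field over `K` of
`cyclotomic r K * (X ^ n - C a)` (or `exists_ext K n hn S hS (cyclotomic r K * (X ^ n - C a))` of
UBC/SelExt with `S = ∅`), so `L` has a primitive `r`-th root of unity and `z` with `z ^ n = a`.  The
polynomial `G = C z * (H.map φ).comp (C (z⁻¹ ^ r) * X)`, `φ = algebraMap K L`, is monic of degree `m`
and `x ↦ z x` conjugates `fam r (H.map φ) (φ c)` to `fam r G (z * φ c)` (over any field containing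
`L`), so it takes pairs `(φ s, φ p)` (`QPair.map`) to pairs `(z φ s, z ^ 2 φ p)`.  Apply `pairs_root`
to `L` and `G`. -/
theorem pairs_all (K : Type u) [Field K] [NumberField K] {r : ℕ} (hr : 6 ≤ r) (H : K[X])
    (hH : H.natDegree ≠ 0) :
    ∃ B : ℕ, ∀ c : K, ∀ P : Finset (K × K), (∀ q ∈ P, QPair r H c q.1 q.2) → P.card ≤ B := by
  classical
  have hH0 : H ≠ 0 := by
    rintro rfl
    exact hH natDegree_zero
  obtain ⟨m, hdeg⟩ : ∃ m, H.natDegree = m := ⟨_, rfl⟩
  have hm : 1 ≤ m := by omega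
  have hrm1 : 6 * 1 ≤ r * m := Nat.mul_le_mul hr hm
  obtain ⟨n, hn⟩ : ∃ n, r * m = n + 1 := ⟨r * m - 1, by omega⟩
  have hn0 : 0 < n := by omega
  set a : K := H.leadingCoeff with ha
  have ha0 : a ≠ 0 := leadingCoeff_ne_zero.2 hH0
  obtain ⟨L, i1, i2, i3, hroot, -⟩ := exists_ext K n hn0 ∅ Set.finite_empty
    (cyclotomic r K * (X ^ n - C a))
    (mul_ne_zero (cyclotomic_ne_zero r K) (X_pow_sub_C_ne_zero hn0 a))
  obtain ⟨ζ0, hζ0'⟩ := hroot (cyclotomic r K) (dvd_mul_right _ _) (by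
    rw [natDegree_cyclotomic]
    exact (Nat.totient_pos.mpr (by omega)).ne')
  have hζ0 : IsPrimitiveRoot ζ0 r := by
    have : NeZero (r : L) := ⟨by exact_mod_cast (by omega : r ≠ 0)⟩
    rw [← isRoot_cyclotomic_iff, IsRoot.def, ← map_cyclotomic r (algebraMap K L)]
    rw [eval_map_algebraMap]
    exact hζ0'
  obtain ⟨z, hz'⟩ := hroot (X ^ n - C a) (dvd_mul_left _ _) (by
    rw [natDegree_X_pow_sub_C]; exact hn0.ne')
  have hz : z ^ n = algebraMap K L a := by
    simp only [map_sub, map_pow, aeval_X, aeval_C] at hz'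
    exact sub_eq_zero.1 hz'
  set φ : K →+* L := algebraMap K L with hφ
  have hφinj : Function.Injective φ := φ.injective
  have hφa : φ a ≠ 0 := (_root_.map_ne_zero φ).mpr ha0
  have hz0 : z ≠ 0 := by
    rintro rfl
    rw [zero_pow hn0.ne'] at hz
    exact hφa hz.symm
  -- the conjugate polynomial
  set G : L[X] := C z * (H.map φ).comp (C (z⁻¹ ^ r) * X) with hG
  have hGcoef : ∀ i, G.coeff i = z * φ (H.coeff i) * (z⁻¹ ^ r) ^ i := by
    intro i
    rw [hG, coeff_C_mul, comp_C_mul_X_coeff, coeff_map]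
    ring
  have hGdeg : G.natDegree = m := by
    rw [hG, natDegree_C_mul hz0, natDegree_comp, natDegree_C_mul_X _ (pow_ne_zero _ (inv_ne_zero hz0)),
      mul_one, natDegree_map, hdeg]
  have hGmonic : G.Monic := by
    unfold Monic leadingCoeff
    rw [hGdeg, hGcoef, ← hdeg]
    change z * φ a * (z⁻¹ ^ r) ^ H.natDegree = 1
    rw [hdeg, ← pow_mul, hn, ← hz, inv_pow, pow_succ]
    field_simp
  obtain ⟨B, hB⟩ := pairs_root L hr hm hζ0 hGmonic hGdeg
  refine ⟨B, fun c P hP => ?_⟩
  have h1 := hB (z * φ c) (P.image fun q : K × K => (z * φ q.1, z ^ 2 * φ q.2)) (by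
    intro w hw
    rw [Finset.mem_image] at hw
    obtain ⟨q, hq, rfl⟩ := hw
    exact qpair_scale hz0 (hP q hq))
  rwa [Finset.card_image_of_injective _ (fun q q' hqq => by
    rw [Prod.mk.injEq] at hqq
    exact Prod.ext (hφinj (mul_left_cancel₀ hz0 hqq.1))
      (hφinj (mul_left_cancel₀ (pow_ne_zero 2 hz0) hqq.2)))] at h1

end UBQ
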