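import Pool.Agent.UBQ.Defs
import Pool.Agent.UBC.LocPer

/-!
# Local size estimates for periodic points of `z ↦ H(z ^ r) + c`
-/

set_option autoImplicit false

namespace UBQ

open Polynomial UBC

namespace LocHt1Aux

/-- a point of maximal size in the orbit of a periodic point -/
lemma max_point {M : Type*} [Field M] (w : AbsoluteValue M ℝ) {g : M → M} {x : M}
    (hx : PerPt g x) : ∃ z, w x ≤ w z ∧ w (g z) ≤ w z := by
  obtain ⟨k, hk, h⟩ := hx
  obtain ⟨i, hi, hmax⟩ := Finset.exists_max_image (Finset.range k) (fun i => w (g^[i] x))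
    ⟨0, Finset.mem_range.2 hk⟩
  have h0 : w x ≤ w (g^[i] x) := hmax 0 (Finset.mem_range.2 hk)
  refine ⟨g^[i] x, h0, ?_⟩
  rw [← Function.iterate_succ_apply' g i x]
  by_cases h1 : i + 1 < k
  · exact hmax (i + 1) (Finset.mem_range.2 h1)
  · have h2 : i + 1 = k := by
      have := Finset.mem_range.1 hi
      omega
    have h3 : g^[i + 1] x = x := by rw [h2, h]
    rw [h3]
    exact h0

lemma nonarch_sum {M : Type*} [Field M] (w : AbsoluteValue M ℝ) (hw : IsNonarchimedean w)
    (s : Finset ℕ) (f : ℕ → M) {B : ℝ} (hB : 0 ≤ B) (h : ∀ i ∈ s, w (f i) ≤ B) :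
    w (∑ i ∈ s, f i) ≤ B := by
  classical
  induction s using Finset.induction_on with
  | empty => simpa using hB
  | insert a s ha ih =>
    rw [Finset.sum_insert ha]
    refine (hw _ _).trans (max_le (h a (Finset.mem_insert_self _ _)) ?_)
    exact ih fun i hi => h i (Finset.mem_insert_of_mem hi)

lemma nonarch_sub {M : Type*} [Field M] (w : AbsoluteValue M ℝ) (hw : IsNonarchimedean w)
    (a b : M) : w (a - b) ≤ max (w a) (w b) := by
  have h := hw a (-b)
  rwa [← sub_eq_add_neg, AbsoluteValue.map_neg] at h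

/-- the leading power -/
lemma pow_eq {M : Type*} [Field M] {r m : ℕ} {H : M[X]} (hH : H.Monic)
    (hdeg : H.natDegree = m) (c z : M) :
    z ^ (r * m) = (fam r H c z - c) - ∑ i ∈ Finset.range m, H.coeff i * (z ^ r) ^ i := by
  unfold fam
  rw [LocPerAux.eval_split hH hdeg, pow_mul]
  ring

/-- size of a lower term -/
lemma term_le {M : Type*} [Field M] (w : AbsoluteValue M ℝ)
    {r m : ℕ} (hr : 2 ≤ r) {H : M[X]}
    {A : ℝ} (hA : 1 ≤ A) (hcoef : ∀ i, w (H.coeff i) ≤ A) {z : M} (hz : 1 ≤ w z) {i : ℕ}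
    (hi : i < m) : w (H.coeff i * (z ^ r) ^ i) ≤ A * w z ^ (r * m - 1) := by
  rw [map_mul, map_pow, map_pow, ← pow_mul]
  have h1 : r * i ≤ r * m - 1 := by
    have : r * (i + 1) ≤ r * m := Nat.mul_le_mul_left r hi
    rw [mul_add, mul_one] at this
    omega
  exact mul_le_mul (hcoef i) (pow_le_pow_right₀ hz h1) (pow_nonneg (w.nonneg z) _)
    (by linarith)

end LocHt1Aux

open LocHt1Aux

/-- Q5a. nonarchimedean: size of periodic points.
Let `R` be the maximal absolute value in the (finite) orbit, attained at `z`, `D = r m`.  If `R ≥ 1`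
then `z ^ D = g z - c - ∑ i < m, a i * z ^ (r i)` gives `R ^ D ≤ max (w c) (A R ^ (D - 1))`, so
`R ≤ max A (w c)`. -/
theorem per_nonarch {M : Type*} [Field M] (w : AbsoluteValue M ℝ) (hw : IsNonarchimedean w)
    {r m : ℕ} (hr : 2 ≤ r) (hm : 1 ≤ m) {H : M[X]} (hH : H.Monic) (hdeg : H.natDegree = m)
    {A : ℝ} (hA : 1 ≤ A) (hcoef : ∀ i, w (H.coeff i) ≤ A) {c x : M}
    (hx : PerPt (fam r H c) x) : max (w x) 1 ≤ A * max (w c) 1 := by
  obtain ⟨z, hxz, hgz⟩ := max_point w hx
  have hmax : 1 ≤ max (w c) 1 := le_max_right _ _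
  have hA1 : A ≤ A * max (w c) 1 := le_mul_of_one_le_right (by linarith) hmax
  have hc1 : w c ≤ A * max (w c) 1 :=
    (le_max_left (w c) 1).trans (le_mul_of_one_le_left (by linarith) hA)
  refine max_le ?_ (hA.trans hA1)
  by_cases hz : 1 ≤ w z
  · refine hxz.trans ?_
    have hD : 2 ≤ r * m := by nlinarith
    have hD1 : r * m = (r * m - 1) + 1 := by omega
    have h1 : w z ≤ w z ^ (r * m - 1) := le_self_pow₀ hz (by omega)
    have h2 : w z ^ (r * m) ≤ max (max (w z) (w c)) (A * w z ^ (r * m - 1)) := by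
      rw [← map_pow, pow_eq hH hdeg c z]
      refine (nonarch_sub w hw _ _).trans (max_le_max ?_ ?_)
      · exact (nonarch_sub w hw _ _).trans (max_le_max hgz le_rfl)
      · refine nonarch_sum w hw _ _ ?_ fun i hi => term_le w hr hA hcoef hz
          (Finset.mem_range.1 hi)
        exact mul_nonneg (by linarith) (pow_nonneg (w.nonneg z) _)
    have hpos : 0 < w z ^ (r * m - 1) := pow_pos (by linarith) _
    have h3 : w z ≤ A * w z ^ (r * m - 1) := h1.trans (le_mul_of_one_le_left hpos.le hA)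
    rcases le_total (w c) (A * w z ^ (r * m - 1)) with h4 | h4
    · have h5 : w z ^ (r * m) ≤ A * w z ^ (r * m - 1) :=
        h2.trans (max_le (max_le h3 h4) le_rfl)
      rw [hD1, pow_succ, Nat.add_sub_cancel, mul_comm (w z ^ (r * m - 1)) (w z)] at h5
      exact (le_of_mul_le_mul_right h5 hpos).trans hA1
    · have h5 : w z ^ (r * m) ≤ w c := h2.trans (max_le (max_le (h3.trans h4) le_rfl) h4)
      have h6 : w z ≤ w z ^ (r * m) := le_self_pow₀ hz (by omega)
      exact (h6.trans h5).trans hc1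
  · exact (hxz.trans (not_le.1 hz).le).trans (hA.trans hA1)

/-- Q5b. any absolute value: size of periodic points.
Now `R ^ D ≤ w c + (m A + 1) R ^ (D - 1)`, so `R ≤ 2 (m A + 1)` or `R ^ D ≤ 2 w c`. -/
theorem per_any {M : Type*} [Field M] (w : AbsoluteValue M ℝ)
    {r m : ℕ} (hr : 2 ≤ r) (hm : 1 ≤ m) {H : M[X]} (hH : H.Monic) (hdeg : H.natDegree = m)
    {A : ℝ} (hA : 1 ≤ A) (hcoef : ∀ i, w (H.coeff i) ≤ A) {c x : M}
    (hx : PerPt (fam r H c) x) : max (w x) 1 ≤ (2 * (m * A + 1)) * max (w c) 1 := by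
  obtain ⟨z, hxz, hgz⟩ := max_point w hx
  have hmax : 1 ≤ max (w c) 1 := le_max_right _ _
  have hB : 2 ≤ 2 * ((m : ℝ) * A + 1) := by
    have : 0 ≤ (m : ℝ) * A := mul_nonneg (Nat.cast_nonneg m) (by linarith)
    linarith
  have hA1 : 2 * ((m : ℝ) * A + 1) ≤ 2 * (m * A + 1) * max (w c) 1 :=
    le_mul_of_one_le_right (by linarith) hmax
  have hc1 : 2 * w c ≤ 2 * (m * A + 1) * max (w c) 1 :=
    mul_le_mul hB (le_max_left (w c) 1) (w.nonneg c) (by linarith)
  refine max_le ?_ (by linarith)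
  by_cases hz : 1 ≤ w z
  · refine hxz.trans ?_
    have hD : 2 ≤ r * m := by nlinarith
    have hD1 : r * m = (r * m - 1) + 1 := by omega
    have h1 : w z ≤ w z ^ (r * m - 1) := le_self_pow₀ hz (by omega)
    have h2 : w z ^ (r * m) ≤ (w z + w c) + m * (A * w z ^ (r * m - 1)) := by
      rw [← map_pow, pow_eq hH hdeg c z]
      refine (w.sub_le_add _ _).trans (add_le_add ?_ ?_)
      · exact (w.sub_le_add _ _).trans (add_le_add hgz le_rfl)
      · refine (w.sum_le _ _).trans ?_
        have h3 : ∑ i ∈ Finset.range m, w (H.coeff i * (z ^ r) ^ i) ≤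
            ∑ _i ∈ Finset.range m, A * w z ^ (r * m - 1) :=
          Finset.sum_le_sum fun i hi => term_le w hr hA hcoef hz (Finset.mem_range.1 hi)
        rw [Finset.sum_const, Finset.card_range, nsmul_eq_mul] at h3
        exact h3
    have hpos : 0 < w z ^ (r * m - 1) := pow_pos (by linarith) _
    have h4 : w z ^ (r * m) ≤ w c + (m * A + 1) * w z ^ (r * m - 1) := by nlinarith
    rcases le_total (w c) ((m * A + 1) * w z ^ (r * m - 1)) with h5 | h5
    · have h6 : w z ^ (r * m) ≤ 2 * (m * A + 1) * w z ^ (r * m - 1) := by linarith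
      rw [hD1, pow_succ, Nat.add_sub_cancel, mul_comm (w z ^ (r * m - 1)) (w z)] at h6
      exact (le_of_mul_le_mul_right h6 hpos).trans hA1
    · have h6 : w z ^ (r * m) ≤ 2 * w c := by linarith
      have h7 : w z ≤ w z ^ (r * m) := le_self_pow₀ hz (by omega)
      exact (h7.trans h6).trans hc1
  · have := not_le.1 hz
    linarith

end UBQ
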