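import Pool.Agent.UBQ.Defs
import Pool.Agent.UBC.LocPer

/-!
# Local distances of periodic points of `z ↦ H(z ^ r) + c`, nonarchimedean case
-/

set_option autoImplicit false

namespace UBQ

open Polynomial UBC

namespace LocHt2Aux

variable {M : Type*} [Field M] (w : AbsoluteValue M ℝ) (hw : IsNonarchimedean w)

include hw

lemma sum_le {ι : Type*} (s : Finset ι) (l : ι → M) {B : ℝ} (hB : 0 ≤ B)
    (h : ∀ i ∈ s, w (l i) ≤ B) : w (∑ i ∈ s, l i) ≤ B := by
  classical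
  induction s using Finset.induction_on with
  | empty => simpa using hB
  | insert a s ha ih =>
    rw [Finset.sum_insert ha]
    refine (hw _ _).trans (max_le (h a (Finset.mem_insert_self _ _)) (ih fun i hi => ?_))
    exact h i (Finset.mem_insert_of_mem hi)

lemma sub_le (a b : M) : w (a - b) ≤ max (w a) (w b) := by
  have := hw a (-b)
  rwa [← sub_eq_add_neg, map_neg_eq_map] at this

/-- the lower terms -/
lemma tail_le {r m : ℕ} {H : M[X]} {A : ℝ} (hA : 1 ≤ A) (hcoef : ∀ i, w (H.coeff i) ≤ A) {z : M}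
    {s : ℝ} (hs : 1 ≤ s) (hz : w z ≤ s) :
    w (∑ i ∈ Finset.range m, H.coeff i * (z ^ r) ^ i) ≤ A * s ^ (r * (m - 1)) := by
  refine sum_le w hw _ _ (by positivity) fun i hi => ?_
  rw [Finset.mem_range] at hi
  rw [map_mul, map_pow, map_pow, ← pow_mul]
  have h1 : w z ^ (r * i) ≤ s ^ (r * i) := pow_le_pow_left₀ (w.nonneg z) hz _
  have h2 : s ^ (r * i) ≤ s ^ (r * (m - 1)) :=
    pow_le_pow_right₀ hs (Nat.mul_le_mul_left r (by omega))
  exact mul_le_mul (hcoef i) (h1.trans h2) (pow_nonneg (w.nonneg z) _) (by linarith)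

variable {r m : ℕ} (hr : 2 ≤ r) (hm : 1 ≤ m) {H : M[X]} (hH : H.Monic) (hdeg : H.natDegree = m)
  {A : ℝ} (hA : 1 ≤ A) (hcoef : ∀ i, w (H.coeff i) ≤ A) {c : M} {t : ℝ} (ht : A < t)
  (htc : w c = t ^ (r * m))

include hr hm hH hdeg hA hcoef ht htc

/-- large points escape -/
lemma esc {z : M} (hz : t < w z) : w z < w (fam r H c z) := by
  have hrm : 2 ≤ r * m := by nlinarith
  have hz1 : 1 < w z := by linarith
  have h1 : z ^ (r * m) = fam r H c z - (c + ∑ i ∈ Finset.range m, H.coeff i * (z ^ r) ^ i) := by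
    unfold fam
    rw [LocPerAux.eval_split hH hdeg, ← pow_mul]
    ring
  have h2 := tail_le w hw (r := r) (m := m) hA hcoef hz1.le (le_refl (w z))
  have h3 : w c < w z ^ (r * m) := by
    rw [htc]
    exact pow_lt_pow_left₀ hz (by linarith) (by omega)
  have h4 : A * w z ^ (r * (m - 1)) < w z ^ (r * m) := by
    have e : r * m = r * (m - 1) + r := by
      obtain ⟨k, rfl⟩ : ∃ k, m = k + 1 := ⟨m - 1, by omega⟩
      rw [Nat.add_sub_cancel]; ring
    rw [e, pow_add, mul_comm]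
    refine mul_lt_mul_of_pos_left ?_ (by positivity)
    calc A < w z := by linarith
      _ = w z ^ 1 := (pow_one _).symm
      _ ≤ w z ^ r := pow_le_pow_right₀ hz1.le (by omega)
  have h5 : w (c + ∑ i ∈ Finset.range m, H.coeff i * (z ^ r) ^ i) < w z ^ (r * m) :=
    (hw _ _).trans_lt (max_lt h3 (h2.trans_lt h4))
  have h6 : w z ^ (r * m) ≤ w (fam r H c z) := by
    have h7 := sub_le w hw (fam r H c z) (c + ∑ i ∈ Finset.range m, H.coeff i * (z ^ r) ^ i)
    rw [← h1, map_pow] at h7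
    rcases le_max_iff.mp h7 with h | h
    · exact h
    · exact absurd h5 (not_lt.mpr h)
  refine lt_of_lt_of_le ?_ h6
  calc w z = w z ^ 1 := (pow_one _).symm
    _ < w z ^ (r * m) := pow_lt_pow_right₀ hz1 (by omega)

/-- periodic points are small -/
lemma per_le {x : M} (hx : PerPt (fam r H c) x) : w x ≤ t := by
  by_contra hlt
  push Not at hlt
  have h1 : ∀ k : ℕ, t < w ((fam r H c)^[k] x) ∧ w x ≤ w ((fam r H c)^[k] x) ∧
      (0 < k → w x < w ((fam r H c)^[k] x)) := by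
    intro k
    induction k with
    | zero => exact ⟨hlt, le_rfl, fun h => absurd h (lt_irrefl 0)⟩
    | succ k ih =>
      rw [Function.iterate_succ_apply']
      have h2 := esc w hw hr hm hH hdeg hA hcoef ht htc ih.1
      exact ⟨ih.1.trans h2, (ih.2.1.trans_lt h2).le, fun _ => ih.2.1.trans_lt h2⟩
  obtain ⟨k, hk, h⟩ := hx
  have h2 := (h1 k).2.2 hk
  rw [h] at h2
  exact lt_irrefl _ h2

/-- `x ^ D + c` is small for a periodic point `x` -/
lemma near_c {x : M} (hx : PerPt (fam r H c) x) :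
    w (x ^ (r * m) + c) ≤ A * t ^ (r * (m - 1) + 1) := by
  have ht1 : 1 ≤ t := by linarith
  have h1 : x ^ (r * m) + c = fam r H c x - ∑ i ∈ Finset.range m, H.coeff i * (x ^ r) ^ i := by
    unfold fam
    rw [LocPerAux.eval_split hH hdeg, ← pow_mul]
    ring
  have h2 := tail_le w hw (r := r) (m := m) hA hcoef ht1
    (per_le w hw hr hm hH hdeg hA hcoef ht htc hx)
  have h3 : PerPt (fam r H c) (fam r H c x) := LocPerAux.per_iter hx 1
  have h4 := per_le w hw hr hm hH hdeg hA hcoef ht htc h3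
  rw [h1]
  refine (sub_le w hw _ _).trans (max_le (h4.trans ?_) (h2.trans ?_))
  · calc t = 1 * t ^ 1 := by rw [one_mul, pow_one]
      _ ≤ A * t ^ (r * (m - 1) + 1) :=
        mul_le_mul hA (pow_le_pow_right₀ ht1 (by omega)) (by positivity) (by linarith)
  · exact mul_le_mul_of_nonneg_left (pow_le_pow_right₀ ht1 (by omega)) (by linarith)

set_option linter.unusedSectionVars false in
lemma lt_c : A * t ^ (r * (m - 1) + 1) < w c := by
  have ht1 : 1 < t := by linarith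
  rw [htc]
  have e : r * m = (r * (m - 1) + 1) + (r - 1) := by
    obtain ⟨k, rfl⟩ : ∃ k, m = k + 1 := ⟨m - 1, by omega⟩
    rw [Nat.add_sub_cancel, Nat.mul_succ]
    omega
  rw [e, pow_add _ _ (r - 1), mul_comm]
  refine mul_lt_mul_of_pos_left ?_ (by positivity)
  calc A < t := ht
    _ = t ^ 1 := (pow_one _).symm
    _ ≤ t ^ (r - 1) := pow_le_pow_right₀ ht1.le (by omega)

/-- the size of a periodic point -/
lemma pow_eq {x : M} (hx : PerPt (fam r H c) x) : w (x ^ (r * m)) = w c := by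
  have h1 := (near_c w hw hr hm hH hdeg hA hcoef ht htc hx).trans_lt
    (lt_c w hw hr hm hH hdeg hA hcoef ht htc)
  apply le_antisymm
  · have h2 := sub_le w hw (x ^ (r * m) + c) c
    rw [add_sub_cancel_right] at h2
    exact h2.trans (max_le h1.le le_rfl)
  · have h2 := sub_le w hw (x ^ (r * m) + c) (x ^ (r * m))
    rw [add_sub_cancel_left] at h2
    rcases le_max_iff.mp h2 with h | h
    · exact absurd h1 (not_lt.mpr h)
    · exact h

end LocHt2Aux

open LocHt2Aux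

/-- Q5c. nonarchimedean: `x ^ (r m)` and `y ^ (r m)` are close to each other.

Proof.  `D = r m`; if `w c ≤ A ^ D` the claim is clear.  Let `w c > A ^ D` and `t ≥ 1` the real number
with `t ^ D = w c`, so `t > A`.  Let `R` be the maximal absolute value in the orbit of a periodic
point `x`, attained at `z`.  If `R ≥ 1` then `z ^ D = g z - c - ∑ i < m, a i * z ^ (r i)` gives
`R ^ D ≤ max (w c) (A R ^ (D - 1))`, so `R ^ D ≤ w c` (if `R ≤ A` then `R ^ D ≤ A ^ D < w c`).  Hence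
`max R 1 ≤ t` and `w (x ^ D + c) = w (g x - ∑ i < m, a i * x ^ (r i)) ≤ A t ^ (D - r + 1)
< t ^ D = w c` (`D - r + 1 = r (m - 1) + 1`), so `w (x ^ D) = w c`; the same for `y`, and
`w (x ^ D - y ^ D) ≤ A t ^ (D - r + 1)`.  So the number `b = w ((x y) ^ D / (x ^ D - y ^ D) ^ 2)` is
at least `t ^ (2 (r - 1)) / A ^ 2` and `b ^ m ≥ t ^ (2 m (r - 1)) / A ^ (2 m) ≥ w c / A ^ (2 m)`
because `2 m (r - 1) ≥ D`. -/
theorem near_nonarch {M : Type*} [Field M] (w : AbsoluteValue M ℝ) (hw : IsNonarchimedean w)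
    {r m : ℕ} (hr : 2 ≤ r) (hm : 1 ≤ m) {H : M[X]} (hH : H.Monic) (hdeg : H.natDegree = m)
    {A : ℝ} (hA : 1 ≤ A) (hcoef : ∀ i, w (H.coeff i) ≤ A) {c x y : M}
    (hx : PerPt (fam r H c) x) (hy : PerPt (fam r H c) y) (hxy : x ^ (r * m) ≠ y ^ (r * m)) :
    max (w c) 1 ≤ A ^ (2 * (r * m)) *
      max (w ((x * y) ^ (r * m) / (x ^ (r * m) - y ^ (r * m)) ^ 2)) 1 ^ m := by
  set b := w ((x * y) ^ (r * m) / (x ^ (r * m) - y ^ (r * m)) ^ 2) with hb
  have hA0 : (0 : ℝ) < A := by linarith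
  have hAD : A ^ (r * m) ≤ A ^ (2 * (r * m)) := pow_le_pow_right₀ hA (by omega)
  have hb1 : (1 : ℝ) ≤ max b 1 ^ m := one_le_pow₀ (le_max_right _ _)
  have hA1 : (1 : ℝ) ≤ A ^ (r * m) := one_le_pow₀ hA
  by_cases hc : w c ≤ A ^ (r * m)
  · calc max (w c) 1 ≤ A ^ (r * m) := max_le hc hA1
      _ ≤ A ^ (2 * (r * m)) := hAD
      _ = A ^ (2 * (r * m)) * 1 := (mul_one _).symm
      _ ≤ A ^ (2 * (r * m)) * max b 1 ^ m := mul_le_mul_of_nonneg_left hb1 (by positivity)
  push Not at hc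
  have hD0 : r * m ≠ 0 := by
    have : 2 ≤ r * m := by nlinarith
    omega
  obtain ⟨t, ht0, htc⟩ : ∃ t : ℝ, 0 ≤ t ∧ w c = t ^ (r * m) :=
    ⟨w c ^ (((r * m : ℕ) : ℝ)⁻¹), Real.rpow_nonneg (w.nonneg c) _,
      (Real.rpow_inv_natCast_pow (w.nonneg c) hD0).symm⟩
  have ht : A < t := by
    rw [htc] at hc
    exact lt_of_pow_lt_pow_left₀ _ ht0 hc
  have ht1 : 1 ≤ t := by linarith
  have htpos : 0 < t := by linarith
  have hxc := pow_eq w hw hr hm hH hdeg hA hcoef ht htc hx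
  have hyc := pow_eq w hw hr hm hH hdeg hA hcoef ht htc hy
  have hdist : w (x ^ (r * m) - y ^ (r * m)) ≤ A * t ^ (r * (m - 1) + 1) := by
    have h1 := sub_le w hw (x ^ (r * m) + c) (y ^ (r * m) + c)
    rw [add_sub_add_right_eq_sub] at h1
    exact h1.trans (max_le (near_c w hw hr hm hH hdeg hA hcoef ht htc hx)
      (near_c w hw hr hm hH hdeg hA hcoef ht htc hy))
  have hpos : 0 < w (x ^ (r * m) - y ^ (r * m)) := w.pos (sub_ne_zero.mpr hxy)
  have hbval : b = (t ^ (r * m)) ^ 2 / w (x ^ (r * m) - y ^ (r * m)) ^ 2 := by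
    rw [hb, map_div₀, map_pow w (_ - _), mul_pow, map_mul, hxc, hyc, htc, sq (t ^ (r * m))]
  -- lower bound for `b`
  have e : r * m = (r * (m - 1) + 1) + (r - 1) := by
    obtain ⟨k, rfl⟩ : ∃ k, m = k + 1 := ⟨m - 1, by omega⟩
    rw [Nat.add_sub_cancel, Nat.mul_succ]
    omega
  have hblow : (t ^ (r - 1)) ^ 2 ≤ A ^ 2 * b := by
    rw [hbval, ← mul_div_assoc, le_div_iff₀ (by positivity)]
    have h1 : t ^ (r * m) = t ^ (r * (m - 1) + 1) * t ^ (r - 1) := by
      rw [← pow_add, ← e]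
    have h2 : w (x ^ (r * m) - y ^ (r * m)) ^ 2 ≤ (A * t ^ (r * (m - 1) + 1)) ^ 2 :=
      pow_le_pow_left₀ hpos.le hdist 2
    calc (t ^ (r - 1)) ^ 2 * w (x ^ (r * m) - y ^ (r * m)) ^ 2
        ≤ (t ^ (r - 1)) ^ 2 * (A * t ^ (r * (m - 1) + 1)) ^ 2 :=
          mul_le_mul_of_nonneg_left h2 (by positivity)
      _ = A ^ 2 * (t ^ (r * m)) ^ 2 := by rw [h1]; ring
  have hb0 : 0 ≤ b := w.nonneg _
  have hfin : w c ≤ A ^ (2 * m) * b ^ m := by
    calc w c = t ^ (r * m) := htc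
      _ ≤ t ^ (2 * (r - 1) * m) := by
        refine pow_le_pow_right₀ ht1 (Nat.mul_le_mul_right m ?_)
        omega
      _ = ((t ^ (r - 1)) ^ 2) ^ m := by
        rw [← pow_mul, ← pow_mul]
        congr 1
        ring
      _ ≤ (A ^ 2 * b) ^ m := pow_le_pow_left₀ (by positivity) hblow m
      _ = A ^ (2 * m) * b ^ m := by rw [mul_pow, ← pow_mul]
  have hwc1 : 1 ≤ w c := by linarith
  rw [max_eq_left hwc1]
  calc w c ≤ A ^ (2 * m) * b ^ m := hfin
    _ ≤ A ^ (2 * (r * m)) * max b 1 ^ m := by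
      refine mul_le_mul (pow_le_pow_right₀ hA ?_) (pow_le_pow_left₀ hb0 (le_max_left _ _) m)
        (by positivity) (by positivity)
      nlinarith

end UBQ
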