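import Pool.Agent.UBQ.Defs
import Pool.Agent.UBC.LocPer

/-!
# Local distances of periodic points of `z ↦ H(z ^ r) + c`, any absolute value
-/

set_option autoImplicit false

namespace UBQ

open Polynomial UBC

namespace LocHt3Aux

variable {M : Type*} [Field M] (w : AbsoluteValue M ℝ)

theorem eval_eq {m : ℕ} {H : M[X]} (hH : H.Monic) (hdeg : H.natDegree = m) (u : M) :
    H.eval u = u ^ m + ∑ i ∈ Finset.range m, H.coeff i * u ^ i := by
  rw [Polynomial.eval_eq_sum_range, hdeg, Finset.sum_range_succ]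
  have h1 : H.coeff m = 1 := by rw [← hdeg]; exact hH
  rw [h1, one_mul, add_comm]

/-- the lower terms -/
theorem lower {r m : ℕ} {H : M[X]} {A : ℝ} (hA : 1 ≤ A)
    (hcoef : ∀ i, w (H.coeff i) ≤ A) {z : M} {T : ℝ} (hT : 1 ≤ T) (hz : w z ≤ T) :
    w (∑ i ∈ Finset.range m, H.coeff i * (z ^ r) ^ i) ≤ m * A * T ^ (r * (m - 1)) := by
  calc w (∑ i ∈ Finset.range m, H.coeff i * (z ^ r) ^ i)
      ≤ ∑ i ∈ Finset.range m, w (H.coeff i * (z ^ r) ^ i) := w.sum_le _ _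
    _ ≤ ∑ i ∈ Finset.range m, A * T ^ (r * (m - 1)) := by
        apply Finset.sum_le_sum
        intro i hi
        rw [map_mul, map_pow, map_pow, ← pow_mul]
        apply mul_le_mul (hcoef i) _ (pow_nonneg (w.nonneg z) _) (by linarith)
        calc w z ^ (r * i) ≤ T ^ (r * i) := pow_le_pow_left₀ (w.nonneg z) hz _
          _ ≤ T ^ (r * (m - 1)) := pow_le_pow_right₀ hT
              (Nat.mul_le_mul_left _ (by have := Finset.mem_range.1 hi; omega))
    _ = m * A * T ^ (r * (m - 1)) := by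
        rw [Finset.sum_const, Finset.card_range, nsmul_eq_mul]; ring

/-- `z ^ D + c` is small -/
theorem near_neg {r m : ℕ} {H : M[X]} (hH : H.Monic)
    (hdeg : H.natDegree = m) {A : ℝ} (hA : 1 ≤ A) (hcoef : ∀ i, w (H.coeff i) ≤ A) {c z : M}
    {T : ℝ} (hT : 1 ≤ T) (hz : w z ≤ T) (hfz : w (fam r H c z) ≤ T) :
    w (z ^ (r * m) + c) ≤ (m * A + 1) * T ^ (r * (m - 1) + 1) := by
  have h1 : z ^ (r * m) + c =
      fam r H c z + -(∑ i ∈ Finset.range m, H.coeff i * (z ^ r) ^ i) := by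
    unfold fam
    rw [eval_eq hH hdeg, pow_mul]
    ring
  rw [h1]
  have h2 := lower w (r := r) (m := m) hA hcoef hT hz
  have h3 : T ^ (r * (m - 1)) ≤ T ^ (r * (m - 1) + 1) := pow_le_pow_right₀ hT (Nat.le_succ _)
  have h4 : T ≤ T ^ (r * (m - 1) + 1) := le_self_pow₀ hT (Nat.succ_ne_zero _)
  have h5 : (0 : ℝ) ≤ m * A := mul_nonneg (Nat.cast_nonneg m) (by linarith)
  calc w (fam r H c z + -(∑ i ∈ Finset.range m, H.coeff i * (z ^ r) ^ i))
      ≤ w (fam r H c z) + w (-(∑ i ∈ Finset.range m, H.coeff i * (z ^ r) ^ i)) := w.add_le _ _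
    _ = w (fam r H c z) + w (∑ i ∈ Finset.range m, H.coeff i * (z ^ r) ^ i) := by
        rw [w.map_neg]
    _ ≤ T ^ (r * (m - 1) + 1) + m * A * T ^ (r * (m - 1) + 1) :=
        add_le_add (hfz.trans h4) (h2.trans (mul_le_mul_of_nonneg_left h3 h5))
    _ = (m * A + 1) * T ^ (r * (m - 1) + 1) := by ring

/-- the orbit is bounded by `2 t` -/
theorem orbit_le {r m : ℕ} (hr : 2 ≤ r) (hm : 1 ≤ m) {H : M[X]} (hH : H.Monic)
    (hdeg : H.natDegree = m) {A : ℝ} (hA : 1 ≤ A) (hcoef : ∀ i, w (H.coeff i) ≤ A) {c x : M}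
    {t : ℝ} (ht : t ^ (r * m) = w c) (ht2 : 2 * (m * A + 1) ≤ t)
    (hx : PerPt (fam r H c) x) (n : ℕ) : w ((fam r H c)^[n] x) ≤ 2 * t := by
  obtain ⟨k, hk, hkx⟩ := hx
  have hper : Function.IsPeriodicPt (fam r H c) k x := hkx
  have hmA : (0 : ℝ) ≤ m * A := mul_nonneg (Nat.cast_nonneg m) (by linarith)
  obtain ⟨j, hj, hmax⟩ := Finset.exists_max_image (Finset.range k)
    (fun j => w ((fam r H c)^[j] x)) ⟨0, Finset.mem_range.2 hk⟩
  have hall : ∀ l, w ((fam r H c)^[l] x) ≤ w ((fam r H c)^[j] x) := by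
    intro l
    rw [← hper.iterate_mod_apply l]
    exact hmax _ (Finset.mem_range.2 (Nat.mod_lt _ hk))
  refine (hall n).trans ?_
  obtain ⟨z, hz⟩ : ∃ z, z = (fam r H c)^[j] x := ⟨_, rfl⟩
  have hfz : w (fam r H c z) ≤ w z := by
    rw [hz, ← Function.iterate_succ_apply' (fam r H c)]
    exact hall _
  rw [← hz]
  by_contra hcon
  push Not at hcon
  have hR1 : 1 ≤ w z := by linarith
  have h1 := near_neg w hH hdeg hA hcoef hR1 le_rfl hfz
  have he : r * m = r * (m - 1) + 1 + (r - 1) := by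
    obtain ⟨m', rfl⟩ : ∃ m', m = m' + 1 := ⟨m - 1, by omega⟩
    rw [Nat.add_sub_cancel, Nat.mul_succ]
    omega
  have hD2 : 2 ≤ r * m := by
    calc 2 ≤ r := hr
      _ ≤ r * m := Nat.le_mul_of_pos_right _ hm
  have h2 : w z ^ (r * m) ≤ w (z ^ (r * m) + c) + w c := by
    have h3 : z ^ (r * m) = (z ^ (r * m) + c) + -c := by ring
    calc w z ^ (r * m) = w (z ^ (r * m)) := (map_pow w z _).symm
      _ = w ((z ^ (r * m) + c) + -c) := by rw [← h3]
      _ ≤ w (z ^ (r * m) + c) + w (-c) := w.add_le _ _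
      _ = w (z ^ (r * m) + c) + w c := by rw [w.map_neg]
  have ht0 : 0 ≤ t := by linarith
  have h4 : 4 * w c ≤ w z ^ (r * m) := by
    rw [← ht]
    calc 4 * t ^ (r * m) = 2 ^ 2 * t ^ (r * m) := by norm_num
      _ ≤ 2 ^ (r * m) * t ^ (r * m) := by
          apply mul_le_mul_of_nonneg_right _ (pow_nonneg ht0 _)
          exact pow_le_pow_right₀ (by norm_num) hD2
      _ = (2 * t) ^ (r * m) := (mul_pow _ _ _).symm
      _ ≤ w z ^ (r * m) := pow_le_pow_left₀ (by linarith) hcon.le _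
  have h5 : w z ^ (r * m) = w z ^ (r * (m - 1) + 1) * w z ^ (r - 1) := by
    rw [← pow_add, ← he]
  have h6 : w z ≤ w z ^ (r - 1) := le_self_pow₀ hR1 (by omega)
  have hpos : 0 < w z ^ (r * (m - 1) + 1) := pow_pos (by linarith) _
  have h7 : 3 / 4 * w z ^ (r - 1) ≤ m * A + 1 := by
    have h8 : (3 / 4 * w z ^ (r - 1)) * w z ^ (r * (m - 1) + 1) ≤
        (m * A + 1) * w z ^ (r * (m - 1) + 1) := by
      have h9 : w z ^ (r * m) ≤ (m * A + 1) * w z ^ (r * (m - 1) + 1) + w z ^ (r * m) / 4 := by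
        linarith
      rw [h5] at h9
      linarith
    exact le_of_mul_le_mul_right h8 hpos
  linarith

/-- `x ^ D` is close to `- c` -/
theorem close {r m : ℕ} (hr : 2 ≤ r) (hm : 1 ≤ m) {H : M[X]} (hH : H.Monic)
    (hdeg : H.natDegree = m) {A : ℝ} (hA : 1 ≤ A) (hcoef : ∀ i, w (H.coeff i) ≤ A) {c x : M}
    {t : ℝ} (ht : t ^ (r * m) = w c) (ht2 : 2 * (m * A + 1) ≤ t)
    (hx : PerPt (fam r H c) x) :
    w (x ^ (r * m) + c) ≤ ((m * A + 1) * 2 ^ (r * m)) * t ^ (r * (m - 1) + 1) := by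
  have h0 := orbit_le w hr hm hH hdeg hA hcoef ht ht2 hx 0
  have h1 := orbit_le w hr hm hH hdeg hA hcoef ht ht2 hx 1
  have hmA : (0 : ℝ) ≤ m * A := mul_nonneg (Nat.cast_nonneg m) (by linarith)
  have h2 := near_neg w hH hdeg hA hcoef (by linarith : (1 : ℝ) ≤ 2 * t) h0 h1
  refine h2.trans ?_
  rw [mul_pow, mul_assoc]
  apply mul_le_mul_of_nonneg_left _ (by linarith)
  apply mul_le_mul_of_nonneg_right _ (pow_nonneg (by linarith) _)
  apply pow_le_pow_right₀ (by norm_num)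
  obtain ⟨m', rfl⟩ : ∃ m', m = m' + 1 := ⟨m - 1, by omega⟩
  rw [Nat.add_sub_cancel, Nat.mul_succ]
  omega

end LocHt3Aux

/-- Q5d. any absolute value: `x ^ (r m)` and `y ^ (r m)` are close to each other.

Proof.  `D = r m`, `A' = m A + 1`, `A'' = A' 2 ^ D`; if `w c ≤ (2 A'') ^ D` the claim is clear.
Otherwise let `t ≥ 1` be the real number with `t ^ D = w c`, so `t ≥ 2 A''`.  Let `R` be the maximal
absolute value in the orbit of a periodic point `x`, attained at `z`.  If `R ≥ 1` then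
`z ^ D = g z - c - ∑ i < m, a i * z ^ (r i)` gives `R ^ D ≤ w c + A' R ^ (D - r + 1)`
(`D - r + 1 = r (m - 1) + 1`).  Hence `max R 1 ≤ 2 t`: otherwise `R ^ D > 4 w c`, so
`R ^ (r - 1) < 2 A'`, `R < 2 A'`, a contradiction to `R > 2 t ≥ 4 A''`.  So
`w (x ^ D + c) = w (g x - ∑ i < m, a i * x ^ (r i)) ≤ A' (2 t) ^ (D - r + 1) ≤ A'' t ^ (D - r + 1)
≤ t ^ D / 2`, so `w (x ^ D) ≥ w c / 2`; the same for `y`, and
`w (x ^ D - y ^ D) ≤ 2 A'' t ^ (D - r + 1)`.  So the number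
`b = w ((x y) ^ D / (x ^ D - y ^ D) ^ 2)` is at least `t ^ (2 (r - 1)) / (4 A'') ^ 2` and
`b ^ m ≥ t ^ (2 m (r - 1)) / (4 A'') ^ (2 m) ≥ w c / (4 A'') ^ (2 m)` because `2 m (r - 1) ≥ D`. -/
theorem near_any {M : Type*} [Field M] (w : AbsoluteValue M ℝ)
    {r m : ℕ} (hr : 2 ≤ r) (hm : 1 ≤ m) {H : M[X]} (hH : H.Monic) (hdeg : H.natDegree = m)
    {A : ℝ} (hA : 1 ≤ A) (hcoef : ∀ i, w (H.coeff i) ≤ A) {c x y : M}
    (hx : PerPt (fam r H c) x) (hy : PerPt (fam r H c) y) (hxy : x ^ (r * m) ≠ y ^ (r * m)) :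
    max (w c) 1 ≤ (4 * ((m * A + 1) * 2 ^ (r * m))) ^ (2 * (r * m)) *
      max (w ((x * y) ^ (r * m) / (x ^ (r * m) - y ^ (r * m)) ^ 2)) 1 ^ m := by
  have hmA : (0 : ℝ) ≤ m * A := mul_nonneg (Nat.cast_nonneg m) (by linarith)
  obtain ⟨B, hB⟩ : ∃ B : ℝ, B = (m * A + 1) * 2 ^ (r * m) := ⟨_, rfl⟩
  have h2D : (1 : ℝ) ≤ 2 ^ (r * m) := one_le_pow₀ (by norm_num)
  have hB1 : m * A + 1 ≤ B := by
    rw [hB]
    exact le_mul_of_one_le_right (by linarith) h2D
  have hB0 : 1 ≤ B := by linarith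
  have hD1 : 1 ≤ r * m := by
    calc 1 ≤ r := by omega
      _ ≤ r * m := Nat.le_mul_of_pos_right _ hm
  rw [← hB]
  obtain ⟨b, hb⟩ : ∃ b : ℝ, b = w ((x * y) ^ (r * m) / (x ^ (r * m) - y ^ (r * m)) ^ 2) :=
    ⟨_, rfl⟩
  rw [← hb]
  have hmax1 : (1 : ℝ) ≤ max b 1 ^ m := one_le_pow₀ (le_max_right _ _)
  by_cases hc : w c ≤ (2 * B) ^ (r * m)
  · have h1 : max (w c) 1 ≤ (2 * B) ^ (r * m) := max_le hc (one_le_pow₀ (by linarith))
    have h2 : (2 * B) ^ (r * m) ≤ (4 * B) ^ (2 * (r * m)) := by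
      calc (2 * B) ^ (r * m) ≤ (4 * B) ^ (r * m) := pow_le_pow_left₀ (by linarith) (by linarith) _
        _ ≤ (4 * B) ^ (2 * (r * m)) := pow_le_pow_right₀ (by linarith) (by omega)
    exact (h1.trans h2).trans (le_mul_of_one_le_right (pow_nonneg (by linarith) _) hmax1)
  · push Not at hc
    have hwc0 : 0 ≤ w c := w.nonneg c
    obtain ⟨t, ht0, ht⟩ : ∃ t : ℝ, 0 ≤ t ∧ t ^ (r * m) = w c :=
      ⟨(w c) ^ (((r * m : ℕ) : ℝ)⁻¹), Real.rpow_nonneg hwc0 _,
        Real.rpow_inv_natCast_pow hwc0 (by omega)⟩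
    have ht2 : 2 * B < t := by
      rw [← ht] at hc
      exact lt_of_pow_lt_pow_left₀ _ ht0 hc
    have ht1 : 1 ≤ t := by linarith
    have hcx := LocHt3Aux.close w hr hm hH hdeg hA hcoef ht (by linarith) hx
    have hcy := LocHt3Aux.close w hr hm hH hdeg hA hcoef ht (by linarith) hy
    rw [← hB] at hcx hcy
    have he : r * m = r * (m - 1) + 1 + (r - 1) := by
      obtain ⟨m', rfl⟩ : ∃ m', m = m' + 1 := ⟨m - 1, by omega⟩
      rw [Nat.add_sub_cancel, Nat.mul_succ]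
      omega
    have hte : 0 < t ^ (r * (m - 1) + 1) := pow_pos (by linarith) _
    have htD : t ^ (r * m) = t ^ (r * (m - 1) + 1) * t ^ (r - 1) := by rw [← pow_add, ← he]
    have htr : t ≤ t ^ (r - 1) := le_self_pow₀ ht1 (by omega)
    have hhalf : B * t ^ (r * (m - 1) + 1) ≤ t ^ (r * m) / 2 := by
      rw [htD]
      have h1 : 2 * B ≤ t ^ (r - 1) := by linarith
      nlinarith
    have hlow : ∀ u : M, w (u ^ (r * m) + c) ≤ B * t ^ (r * (m - 1) + 1) →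
        t ^ (r * m) / 2 ≤ w (u ^ (r * m)) := by
      intro u hu
      have h3 : c = (u ^ (r * m) + c) + -(u ^ (r * m)) := by ring
      have h4 : w c ≤ w (u ^ (r * m) + c) + w (u ^ (r * m)) := by
        calc w c = w ((u ^ (r * m) + c) + -(u ^ (r * m))) := by rw [← h3]
          _ ≤ w (u ^ (r * m) + c) + w (-(u ^ (r * m))) := w.add_le _ _
          _ = w (u ^ (r * m) + c) + w (u ^ (r * m)) := by rw [w.map_neg]
      rw [← ht] at h4
      linarith
    have hxl := hlow x hcx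
    have hyl := hlow y hcy
    have hdiff : w (x ^ (r * m) - y ^ (r * m)) ≤ 2 * B * t ^ (r * (m - 1) + 1) := by
      have h3 : x ^ (r * m) - y ^ (r * m) = (x ^ (r * m) + c) + -(y ^ (r * m) + c) := by ring
      calc w (x ^ (r * m) - y ^ (r * m)) = w ((x ^ (r * m) + c) + -(y ^ (r * m) + c)) := by
            rw [← h3]
        _ ≤ w (x ^ (r * m) + c) + w (-(y ^ (r * m) + c)) := w.add_le _ _
        _ = w (x ^ (r * m) + c) + w (y ^ (r * m) + c) := by rw [w.map_neg]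
        _ ≤ 2 * B * t ^ (r * (m - 1) + 1) := by linarith
    have hdpos : 0 < w (x ^ (r * m) - y ^ (r * m)) := w.pos (sub_ne_zero.2 hxy)
    have hbv : b = w (x ^ (r * m)) * w (y ^ (r * m)) / w (x ^ (r * m) - y ^ (r * m)) ^ 2 := by
      rw [hb, map_div₀, mul_pow, map_mul, map_pow w (x ^ (r * m) - y ^ (r * m))]
    have hkey : t ^ (2 * (r - 1)) ≤ (4 * B) ^ 2 * b := by
      rw [hbv, ← mul_div_assoc, le_div_iff₀ (pow_pos hdpos 2)]
      have h5 : w (x ^ (r * m) - y ^ (r * m)) ^ 2 ≤ (2 * B * t ^ (r * (m - 1) + 1)) ^ 2 :=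
        pow_le_pow_left₀ hdpos.le hdiff 2
      have h6 : t ^ (r * m) / 2 * (t ^ (r * m) / 2) ≤ w (x ^ (r * m)) * w (y ^ (r * m)) :=
        mul_le_mul hxl hyl (by positivity) (w.nonneg _)
      calc t ^ (2 * (r - 1)) * w (x ^ (r * m) - y ^ (r * m)) ^ 2
          ≤ t ^ (2 * (r - 1)) * (2 * B * t ^ (r * (m - 1) + 1)) ^ 2 :=
            mul_le_mul_of_nonneg_left h5 (pow_nonneg ht0 _)
        _ = (4 * B) ^ 2 * (t ^ (r * m) / 2 * (t ^ (r * m) / 2)) := by
            rw [htD, mul_comm 2 (r - 1), pow_mul]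
            ring
        _ ≤ (4 * B) ^ 2 * (w (x ^ (r * m)) * w (y ^ (r * m))) :=
            mul_le_mul_of_nonneg_left h6 (by positivity)
    have hb0 : 0 ≤ b := by rw [hb]; exact w.nonneg _
    have hwc1 : 1 ≤ w c := by
      rw [← ht]
      exact one_le_pow₀ ht1
    rw [max_eq_left hwc1, ← ht]
    calc t ^ (r * m) ≤ t ^ (2 * (r - 1) * m) := by
          apply pow_le_pow_right₀ ht1
          exact Nat.mul_le_mul_right _ (by omega)
      _ = (t ^ (2 * (r - 1))) ^ m := pow_mul _ _ _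
      _ ≤ ((4 * B) ^ 2 * b) ^ m := pow_le_pow_left₀ (pow_nonneg ht0 _) hkey _
      _ = (4 * B) ^ (2 * m) * b ^ m := by rw [mul_pow, ← pow_mul]
      _ ≤ (4 * B) ^ (2 * (r * m)) * max b 1 ^ m := by
          apply mul_le_mul _ _ (pow_nonneg hb0 _) (pow_nonneg (by linarith) _)
          · apply pow_le_pow_right₀ (by linarith)
            exact Nat.mul_le_mul_left _ (Nat.le_mul_of_pos_left _ (by omega))
          · exact pow_le_pow_left₀ hb0 (le_max_left _ _) _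

end UBQ
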