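import Pool.Agent.UBQ.Defs

/-!
# Pairs of periodic points in extensions
-/

set_option autoImplicit false

universe u

namespace UBQ

open NumberField Polynomial UBC

namespace PairAux

theorem fam_map {E E' : Type*} [Field E] [Field E'] (φ : E →+* E') (r : ℕ) (H : E[X]) (c x : E) :
    fam r (H.map φ) (φ c) (φ x) = φ (fam r H c x) := by
  simp only [fam, map_add]
  rw [← map_pow, Polynomial.eval_map, Polynomial.eval₂_at_apply]

theorem iter_map {E E' : Type*} [Field E] [Field E'] (φ : E →+* E') (r : ℕ) (H : E[X]) (c x : E)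
    (n : ℕ) : (fam r (H.map φ) (φ c))^[n] (φ x) = φ ((fam r H c)^[n] x) := by
  induction n with
  | zero => rfl
  | succ n ih => rw [Function.iterate_succ_apply', Function.iterate_succ_apply', ih, fam_map]

theorem perPt_map_iff {E E' : Type*} [Field E] [Field E'] (φ : E →+* E') (r : ℕ) (H : E[X])
    (c x : E) : PerPt (fam r (H.map φ) (φ c)) (φ x) ↔ PerPt (fam r H c) x := by
  constructor
  · rintro ⟨k, hk, h⟩
    refine ⟨k, hk, φ.injective ?_⟩
    rw [← iter_map, h]
  · rintro ⟨k, hk, h⟩
    refine ⟨k, hk, ?_⟩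
    rw [iter_map, h]

/-- pairs are transported by field homomorphisms over `K`, in both directions -/
theorem pairIn_map_iff {K E E' : Type*} [Field K] [Field E] [Field E'] [Algebra K E]
    [Algebra K E'] (φ : E →ₐ[K] E') (r : ℕ) (H : K[X]) (c s p : K) (x y : E) :
    PairIn E' r H c s p (φ x) (φ y) ↔ PairIn E r H c s p x y := by
  have hH : (H.map (algebraMap K E)).map (φ : E →+* E') = H.map (algebraMap K E') := by
    rw [Polynomial.map_map]
    congr 1
    ext a
    simp
  have hc : ∀ a : K, algebraMap K E' a = (φ : E →+* E') (algebraMap K E a) := fun a => by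
    simp
  unfold PairIn
  have h1 : ∀ z : E, PerPt (fam r (H.map (algebraMap K E')) (algebraMap K E' c)) (φ z) ↔
      PerPt (fam r (H.map (algebraMap K E)) (algebraMap K E c)) z := fun z => by
    rw [← hH, hc]
    exact perPt_map_iff (φ : E →+* E') r _ _ z
  rw [h1, h1]
  have h2 : φ x + φ y = algebraMap K E' s ↔ x + y = algebraMap K E s := by
    rw [hc, ← map_add]
    exact (φ : E →+* E').injective.eq_iff
  have h3 : φ x * φ y = algebraMap K E' p ↔ x * y = algebraMap K E p := by
    rw [hc, ← map_mul]
    exact (φ : E →+* E').injective.eq_iff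
  rw [h2, h3]
  have h4 : φ x ≠ φ y ↔ x ≠ y :=
    not_congr ((φ : E →+* E').injective.eq_iff (a := x) (b := y))
  rw [h4]

end PairAux

open PairAux

/-- Q2a. a pair over `K` is a pair over an algebraic extension `L` -/
theorem QPair.map {K L : Type*} [Field K] [Field L] [Algebra K L] {r : ℕ} {H : K[X]} {c s p : K}
    (h : QPair r H c s p) :
    QPair r (H.map (algebraMap K L)) (algebraMap K L c) (algebraMap K L s)
      (algebraMap K L p) := by
  obtain ⟨x, y, hxy⟩ := h
  let φ : AlgebraicClosure K →ₐ[K] AlgebraicClosure L := IsAlgClosed.lift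
  refine ⟨φ x, φ y, ?_⟩
  have h1 := (pairIn_map_iff φ r H c s p x y).2 hxy
  unfold PairIn at h1 ⊢
  have hH : (H.map (algebraMap K L)).map (algebraMap L (AlgebraicClosure L)) =
      H.map (algebraMap K (AlgebraicClosure L)) := by
    rw [Polynomial.map_map, ← IsScalarTower.algebraMap_eq]
  rw [hH, ← IsScalarTower.algebraMap_apply, ← IsScalarTower.algebraMap_apply,
    ← IsScalarTower.algebraMap_apply]
  exact h1

/-- Q2b. two pairs live in a common number field -/
theorem QPair.field₂ {K : Type u} [Field K] [NumberField K] {r : ℕ} {H : K[X]}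
    {c s p s' p' : K} (h : QPair r H c s p) (h' : QPair r H c s' p') :
    ∃ (M : Type u) (_ : Field M) (_ : NumberField M) (_ : Algebra K M) (x y x' y' : M),
      PairIn M r H c s p x y ∧ PairIn M r H c s' p' x' y' := by
  obtain ⟨x, y, hxy⟩ := h
  obtain ⟨x', y', hxy'⟩ := h'
  let S : Set (AlgebraicClosure K) := {x, y, x', y'}
  let M : IntermediateField K (AlgebraicClosure K) := IntermediateField.adjoin K S
  have hS : S.Finite := by simp [S]
  have : FiniteDimensional K M := by
    refine IntermediateField.finiteDimensional_adjoin (S := S) ?_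
    intro z _
    exact (Algebra.IsAlgebraic.isAlgebraic (R := K) z).isIntegral
  have : CharZero M := algebraRat.charZero M
  have : FiniteDimensional ℚ M := FiniteDimensional.trans ℚ K M
  have : NumberField M := ⟨⟩
  have hx : x ∈ M := IntermediateField.subset_adjoin K S (by simp [S])
  have hy : y ∈ M := IntermediateField.subset_adjoin K S (by simp [S])
  have hx' : x' ∈ M := IntermediateField.subset_adjoin K S (by simp [S])
  have hy' : y' ∈ M := IntermediateField.subset_adjoin K S (by simp [S])
  refine ⟨M, inferInstance, inferInstance, inferInstance, ⟨x, hx⟩, ⟨y, hy⟩, ⟨x', hx'⟩, ⟨y', hy'⟩,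
    ?_, ?_⟩
  · exact (pairIn_map_iff M.val r H c s p ⟨x, hx⟩ ⟨y, hy⟩).1 hxy
  · exact (pairIn_map_iff M.val r H c s' p' ⟨x', hx'⟩ ⟨y', hy'⟩).1 hxy'

/-- Q2c. one pair in a number field -/
theorem QPair.field {K : Type u} [Field K] [NumberField K] {r : ℕ} {H : K[X]}
    {c s p : K} (h : QPair r H c s p) :
    ∃ (M : Type u) (_ : Field M) (_ : NumberField M) (_ : Algebra K M) (x y : M),
      PairIn M r H c s p x y := by
  obtain ⟨M, i1, i2, i3, x, y, x', y', h1, h2⟩ := h.field₂ h
  exact ⟨M, i1, i2, i3, x, y, h1⟩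

end UBQ
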