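import Pool.Agent.UBQ.ValExt
import Pool.Agent.UBQ.Pair
import Pool.Agent.UBQ.LocHt1
import Pool.Agent.UBQ.LocHt2
import Pool.Agent.UBQ.LocHt3
import Pool.Agent.UBC.LocGlob

/-!
# Heights of pairs, upper bound
-/

set_option autoImplicit false

universe u

namespace UBQ

open Height NumberField Polynomial UBC

namespace Ht1Aux

open AdmissibleAbsValues

/-- product of the absolute values of the coefficients that are larger than `1` -/
noncomputable def cA {L : Type*} [Field L] (m : ℕ) (H : L[X]) (v : AbsoluteValue L ℝ) : ℝ :=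
  ∏ i ∈ Finset.range (m + 1), max (v (H.coeff i)) 1

theorem prod_one_le {ι : Type*} (s : Finset ι) (f : ι → ℝ) (hf : ∀ i, 1 ≤ f i) :
    1 ≤ ∏ i ∈ s, f i :=
  Finset.prod_induction f (fun x => 1 ≤ x)
    (fun _ _ ha hb => one_le_mul_of_one_le_of_one_le ha hb) le_rfl (fun i _ => hf i)

theorem one_le_cA {L : Type*} [Field L] (m : ℕ) (H : L[X]) (v : AbsoluteValue L ℝ) :
    1 ≤ cA m H v :=
  prod_one_le _ _ (fun _ => le_max_right _ _)

theorem coeff_le_cA {L : Type*} [Field L] {m : ℕ} {H : L[X]} (hdeg : H.natDegree = m)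
    (v : AbsoluteValue L ℝ) (i : ℕ) : v (H.coeff i) ≤ cA m H v := by
  classical
  by_cases hi : i ≤ m
  · have hmem : i ∈ Finset.range (m + 1) := Finset.mem_range.mpr (by omega)
    rw [cA, ← Finset.mul_prod_erase _ _ hmem]
    have h1 : 1 ≤ ∏ j ∈ (Finset.range (m + 1)).erase i, max (v (H.coeff j)) 1 :=
      prod_one_le _ _ (fun _ => le_max_right _ _)
    have h2 : 0 ≤ max (v (H.coeff i)) 1 := le_trans zero_le_one (le_max_right _ _)
    calc v (H.coeff i) ≤ max (v (H.coeff i)) 1 := le_max_left _ _
      _ = max (v (H.coeff i)) 1 * 1 := (mul_one _).symm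
      _ ≤ _ := mul_le_mul_of_nonneg_left h1 h2
  · have h0 : H.coeff i = 0 := coeff_eq_zero_of_natDegree_lt (by omega)
    rw [h0, map_zero]
    exact le_trans zero_le_one (one_le_cA m H v)

theorem fin_cA {L : Type*} [Field L] [AdmissibleAbsValues L] (m : ℕ) (H : L[X]) :
    {v : AbsoluteValue L ℝ | v ∈ nonarchAbsVal (K := L) ∧ cA m H v ≠ 1}.Finite := by
  classical
  have h1 : ∀ i, {v : AbsoluteValue L ℝ | v ∈ nonarchAbsVal (K := L) ∧
      max (v (H.coeff i)) 1 ≠ 1}.Finite := by
    intro i
    have h := LocGlobAux.fms_max (L := L) (H.coeff i)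
    refine (Set.Finite.image Subtype.val h).subset ?_
    rintro v ⟨hv, hv2⟩
    exact ⟨⟨v, hv⟩, hv2, rfl⟩
  refine (Set.Finite.biUnion (Finset.finite_toSet (Finset.range (m + 1)))
    (fun i _ => h1 i)).subset ?_
  rintro v ⟨hv, hv2⟩
  by_contra hcon
  apply hv2
  rw [cA]
  refine Finset.prod_eq_one (fun i hi => ?_)
  by_contra hne
  apply hcon
  simp only [Set.mem_iUnion]
  exact ⟨i, hi, hv, hne⟩

end Ht1Aux

open Ht1Aux AdmissibleAbsValues in
/-- Q6a.  `height_le_of_local` (LocGlob.lean) with `A v = max over i of v (H.coeff i) and 1` at the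
nonarchimedean places and a power of `4 (m A v + 1)` at the others; for a place `v` of `L` take a
number field `M` containing the pair (`QPair.field`) and an extension `w` of `v` to `M`
(`exists_abv_ext_nonarch`, `exists_abv_ext_arch`), then `per_nonarch`, `per_any`. -/
theorem ht_upper (L : Type u) [Field L] [NumberField L] {r m : ℕ} (hr : 2 ≤ r) (hm : 1 ≤ m)
    {H : L[X]} (hH : H.Monic) (hdeg : H.natDegree = m) :
    ∃ C : ℝ, ∀ c s p : L, QPair r H c s p →
      logHeight₁ s ≤ logHeight₁ c + C ∧ logHeight₁ p ≤ 2 * logHeight₁ c + C := by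
  classical
  let B : AbsoluteValue L ℝ → ℝ := fun v =>
    if v ∈ nonarchAbsVal (K := L) then cA m H v ^ 2 else (4 * (m * cA m H v + 1)) ^ 2
  have hB : Ok L B := by
    constructor
    · intro v
      have h1 := one_le_cA m H v
      by_cases hv : v ∈ nonarchAbsVal (K := L)
      · simp only [B, if_pos hv]
        exact one_le_pow₀ h1
      · simp only [B, if_neg hv]
        refine one_le_pow₀ ?_
        have h2 : (0 : ℝ) ≤ m * cA m H v := by positivity
        linarith
    · refine (fin_cA m H).subset ?_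
      rintro v ⟨hv, hv2⟩
      refine ⟨hv, fun h1 => hv2 ?_⟩
      simp only [B, if_pos hv, h1, one_pow]
  obtain ⟨C, hC⟩ := height_le_of_local L B hB
  refine ⟨C, fun c s p hpair => ?_⟩
  obtain ⟨M, i1, i2, i3, x, y, hxy, hx, hy, hs, hp⟩ := hpair.field
  have hH' : (H.map (algebraMap L M)).Monic := hH.map _
  have hdeg' : (H.map (algebraMap L M)).natDegree = m := by
    rw [hH.natDegree_map, hdeg]
  -- local estimates
  have key : ∀ v, IsPl L v →
      max (v s) 1 ≤ B v * max (v c) 1 ∧ max (v p) 1 ≤ B v * max (v c) 1 ^ 2 := by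
    intro v hv
    have hA1 := one_le_cA m H v
    obtain ⟨T, hT⟩ : ∃ T : ℝ, T = max (v c) 1 := ⟨_, rfl⟩
    have hT1 : 1 ≤ T := by rw [hT]; exact le_max_right _ _
    rw [← hT]
    have hBv1 := hB.1 v
    by_cases hna : v ∈ nonarchAbsVal (K := L)
    · obtain ⟨w, hw, hwv⟩ := exists_abv_ext_nonarch L M v hna
      have hcoef : ∀ i, w ((H.map (algebraMap L M)).coeff i) ≤ cA m H v := by
        intro i
        rw [coeff_map, hwv]
        exact coeff_le_cA hdeg v i
      have ex := per_nonarch w hw hr hm hH' hdeg' hA1 hcoef hx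
      have ey := per_nonarch w hw hr hm hH' hdeg' hA1 hcoef hy
      rw [hwv, ← hT] at ex ey
      have ex1 : w x ≤ cA m H v * T := le_trans (le_max_left _ _) ex
      have ey1 : w y ≤ cA m H v * T := le_trans (le_max_left _ _) ey
      have hBv : B v = cA m H v ^ 2 := by simp only [B, if_pos hna]
      have hATpos : 1 ≤ cA m H v * T := one_le_mul_of_one_le_of_one_le hA1 hT1
      constructor
      · refine max_le ?_ ?_
        · rw [← hwv, ← hs]
          refine le_trans (hw x y) (max_le (le_trans ex1 ?_) (le_trans ey1 ?_)) <;>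
          · rw [hBv]
            have : cA m H v ≤ cA m H v ^ 2 := by nlinarith
            nlinarith
        · rw [hBv]
          have : 1 ≤ cA m H v ^ 2 := one_le_pow₀ hA1
          exact one_le_mul_of_one_le_of_one_le this hT1
      · refine max_le ?_ ?_
        · rw [← hwv, ← hp, map_mul, hBv, ← mul_pow, pow_two]
          exact mul_le_mul ex1 ey1 (w.nonneg y) (by linarith)
        · rw [hBv, ← mul_pow]
          exact one_le_pow₀ hATpos
    · have har : v ∈ archAbsVal (K := L) := by
        rcases hv with hv | hv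
        · exact hv
        · exact absurd hv hna
      obtain ⟨w, hwv⟩ := exists_abv_ext_arch L M v har
      have hcoef : ∀ i, w ((H.map (algebraMap L M)).coeff i) ≤ cA m H v := by
        intro i
        rw [coeff_map, hwv]
        exact coeff_le_cA hdeg v i
      have ex := per_any w hr hm hH' hdeg' hA1 hcoef hx
      have ey := per_any w hr hm hH' hdeg' hA1 hcoef hy
      rw [hwv, ← hT] at ex ey
      obtain ⟨Q, hQ⟩ : ∃ Q : ℝ, Q = m * cA m H v + 1 := ⟨_, rfl⟩
      have hQ1 : 1 ≤ Q := by
        rw [hQ]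
        have h2 : (0 : ℝ) ≤ m * cA m H v := by positivity
        linarith
      rw [← hQ] at ex ey
      have ex1 : w x ≤ 2 * Q * T := le_trans (le_max_left _ _) ex
      have ey1 : w y ≤ 2 * Q * T := le_trans (le_max_left _ _) ey
      have hBv : B v = (4 * Q) ^ 2 := by simp only [B, if_neg hna, hQ]
      have hQT : 1 ≤ Q * T := one_le_mul_of_one_le_of_one_le hQ1 hT1
      constructor
      · refine max_le ?_ ?_
        · rw [← hwv, ← hs]
          refine le_trans (w.add_le x y) ?_
          rw [hBv]
          nlinarith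
        · rw [hBv]
          nlinarith
      · refine max_le ?_ ?_
        · rw [← hwv, ← hp, map_mul, hBv]
          calc w x * w y ≤ (2 * Q * T) * (2 * Q * T) :=
                mul_le_mul ex1 ey1 (w.nonneg y) (by nlinarith)
            _ ≤ (4 * Q) ^ 2 * T ^ 2 := by nlinarith [sq_nonneg (Q * T)]
        · rw [hBv, ← mul_pow]
          refine one_le_pow₀ ?_
          nlinarith
  constructor
  · have h := hC (Fin 1) s (fun _ => c) 1 (fun v hv => by
      simpa using (key v hv).1)
    simpa using h
  · have h := hC (Fin 1) p (fun _ => c) 2 (fun v hv => by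
      simpa using (key v hv).2)
    simpa using h

end UBQ
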