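import Pool.Agent.UBQ.ValExt
import Pool.Agent.UBQ.Pair
import Pool.Agent.UBQ.LocHt1
import Pool.Agent.UBQ.LocHt2
import Pool.Agent.UBQ.LocHt3
import Pool.Agent.UBC.LocGlob

/-!
# Heights of pairs, lower bound
-/

set_option autoImplicit false

universe u

namespace UBQ

open Height NumberField Polynomial UBC AdmissibleAbsValues

namespace Ht2Aux

/-- almost all nonarchimedean absolute values of `a` are at most one -/
theorem finite_bad (L : Type*) [Field L] [AdmissibleAbsValues L] (a : L) :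
    {v : AbsoluteValue L ℝ | v ∈ nonarchAbsVal (K := L) ∧ ¬ v a ≤ 1}.Finite := by
  by_cases ha : a = 0
  · refine Set.Finite.subset Set.finite_empty ?_
    rintro v ⟨_, hv⟩
    exact absurd (by rw [ha, map_zero]; exact zero_le_one) hv
  · have h := (AdmissibleAbsValues.hasFiniteMulSupport (K := L) ha)
    have h2 : (Subtype.val '' (Function.mulSupport
        (fun v : nonarchAbsVal (K := L) => v.val a))).Finite := Set.Finite.image _ h
    refine Set.Finite.subset h2 ?_
    rintro v ⟨hv1, hv2⟩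
    refine ⟨⟨v, hv1⟩, ?_, rfl⟩
    rw [Function.mem_mulSupport]
    intro hcon
    exact hv2 (le_of_eq hcon)

/-- heights of values of a fixed polynomial -/
theorem eval_le (L : Type*) [Field L] [NumberField L] (P : L[X]) :
    ∃ C1 C2 : ℝ, 0 ≤ C1 ∧ ∀ x : L, logHeight₁ (P.eval x) ≤ C1 * logHeight₁ x + C2 := by
  induction P using Polynomial.induction_on' with
  | add p q hp hq =>
    obtain ⟨C1, C2, h0, h1⟩ := hp
    obtain ⟨D1, D2, k0, k1⟩ := hq
    obtain ⟨E, hE⟩ : ∃ E : ℝ, ∀ x y : L, logHeight₁ (x + y) ≤ E + logHeight₁ x + logHeight₁ y :=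
      ⟨_, fun x y => logHeight₁_add_le x y⟩
    refine ⟨C1 + D1, C2 + D2 + E, add_nonneg h0 k0, fun x => ?_⟩
    rw [eval_add]
    have e1 := hE (p.eval x) (q.eval x)
    have e2 := h1 x
    have e3 := k1 x
    linarith
  | monomial n a =>
    refine ⟨n, logHeight₁ a, Nat.cast_nonneg n, fun x => ?_⟩
    rw [eval_monomial]
    have e1 := logHeight₁_mul_le a (x ^ n)
    rw [logHeight₁_pow] at e1
    linarith

/-- the polynomial is not zero -/
theorem dickson_ne (L : Type*) [Field L] [CharZero L] {D : ℕ} (hD : D ≠ 0) :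
    dickson 1 (1 : L) D - C 2 ≠ 0 := by
  intro h
  have h2 : (2 : L) ≠ 0 := two_ne_zero
  have h1 := congrArg (eval ((2 : L) + 2⁻¹)) h
  rw [eval_sub, dickson_one_one_eval_add_inv (2 : L) 2⁻¹ (mul_inv_cancel₀ h2), eval_C,
    eval_zero, inv_pow] at h1
  have h3 : (2 : L) ^ D ≠ 0 := pow_ne_zero _ h2
  have h4 : ((2 : L) ^ D - 1) ^ 2 = 0 := by
    field_simp at h1
    linear_combination h1
  have h5 : (2 : L) ^ D = 1 := sub_eq_zero.1 (pow_eq_zero_iff (two_ne_zero) |>.1 h4)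
  have h6 : (2 : ℕ) ^ D = 1 := by exact_mod_cast h5
  have h7 : 1 < (2 : ℕ) ^ D := Nat.one_lt_two_pow hD
  omega

/-- value of the polynomial -/
theorem dickson_val {M : Type*} [Field M] {D : ℕ} {x y : M} (hx : x ≠ 0) (hy : y ≠ 0) :
    ((dickson 1 (1 : M) D - C 2).eval ((x + y) ^ 2 / (x * y) - 2))⁻¹ =
      (x * y) ^ D / (x ^ D - y ^ D) ^ 2 := by
  have e : (x + y) ^ 2 / (x * y) - 2 = x / y + y / x := by
    field_simp
    ring
  have hX : x ^ D ≠ 0 := pow_ne_zero _ hx
  have hY : y ^ D ≠ 0 := pow_ne_zero _ hy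
  have e2 : (x / y) ^ D + (y / x) ^ D - 2 = (x ^ D - y ^ D) ^ 2 / (x * y) ^ D := by
    rw [div_pow, div_pow, mul_pow]
    field_simp
    ring
  rw [e, eval_sub, dickson_one_one_eval_add_inv (x / y) (y / x) (by field_simp), eval_C, e2,
    inv_div]

/-- evaluation and extension of the field -/
theorem dickson_map {L M : Type*} [Field L] [Field M] [Algebra L M] (D : ℕ) (τ : L) :
    algebraMap L M ((dickson 1 (1 : L) D - C 2).eval τ) =
      (dickson 1 (1 : M) D - C 2).eval (algebraMap L M τ) := by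
  have h : (dickson 1 (1 : L) D - C 2).map (algebraMap L M) = dickson 1 (1 : M) D - C 2 := by
    rw [Polynomial.map_sub, map_dickson, map_one, map_C, map_ofNat]
  rw [← h, eval_map_algebraMap, ← aeval_algebraMap_apply_eq_algebraMap_eval]

/-- the constant at a place -/
noncomputable def Bc {L : Type*} [Field L] [AdmissibleAbsValues L] (r m : ℕ) (H : L[X])
    (v : AbsoluteValue L ℝ) : ℝ :=
  open Classical in
  if v ∈ nonarchAbsVal (K := L) ∧ ∀ i, v (H.coeff i) ≤ 1 then 1 else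
    (4 * ((m * (1 + ∑ i ∈ H.support, v (H.coeff i)) + 1) * 2 ^ (r * m))) ^ (2 * (r * m))

theorem coef_le {L : Type*} [Field L] (H : L[X]) (v : AbsoluteValue L ℝ) (i : ℕ) :
    v (H.coeff i) ≤ 1 + ∑ i ∈ H.support, v (H.coeff i) := by
  have h0 : 0 ≤ ∑ i ∈ H.support, v (H.coeff i) :=
    Finset.sum_nonneg fun _ _ => v.nonneg _
  by_cases hi : i ∈ H.support
  · have := Finset.single_le_sum (f := fun i => v (H.coeff i)) (fun _ _ => v.nonneg _) hi
    linarith
  · rw [notMem_support_iff.1 hi, map_zero]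
    linarith

theorem Bc_ok {L : Type*} [Field L] [AdmissibleAbsValues L] (r m : ℕ) (H : L[X]) :
    Ok L (Bc r m H) := by
  classical
  constructor
  · intro v
    unfold Bc
    split_ifs with h
    · exact le_rfl
    · have h0 : 0 ≤ ∑ i ∈ H.support, v (H.coeff i) :=
        Finset.sum_nonneg fun _ _ => v.nonneg _
      have h1 : (1 : ℝ) ≤ 2 ^ (r * m) := one_le_pow₀ (by norm_num)
      have h2 : (0 : ℝ) ≤ m := Nat.cast_nonneg m
      have h3 : (1 : ℝ) ≤ m * (1 + ∑ i ∈ H.support, v (H.coeff i)) + 1 := by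
        have : 0 ≤ (m : ℝ) * (1 + ∑ i ∈ H.support, v (H.coeff i)) := by positivity
        linarith
      apply one_le_pow₀
      nlinarith [mul_le_mul h3 h1 (by norm_num) (by linarith)]
  · have hfin : (⋃ i ∈ H.support, {v : AbsoluteValue L ℝ |
        v ∈ nonarchAbsVal (K := L) ∧ ¬ v (H.coeff i) ≤ 1}).Finite :=
      Set.Finite.biUnion H.support.finite_toSet fun i _ => finite_bad L _
    refine Set.Finite.subset hfin ?_
    rintro v ⟨hv1, hv2⟩
    have hv3 : ¬ ∀ i, v (H.coeff i) ≤ 1 := by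
      intro hcon
      exact hv2 (if_pos ⟨hv1, hcon⟩)
    obtain ⟨i, hi⟩ := not_forall.1 hv3
    have his : i ∈ H.support := by
      rw [mem_support_iff]
      intro h0
      apply hi
      rw [h0, map_zero]
      exact zero_le_one
    exact Set.mem_biUnion his ⟨hv1, hi⟩

/-- the local estimate -/
theorem local_est (L : Type u) [Field L] [NumberField L] {r m : ℕ} (hr : 2 ≤ r) (hm : 1 ≤ m)
    {H : L[X]} (hH : H.Monic) (hdeg : H.natDegree = m) {c s p : L} (h : QPair r H c s p)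
    (hp : p ≠ 0) (hP : (dickson 1 (1 : L) (r * m) - C 2).eval (s ^ 2 / p - 2) ≠ 0)
    (v : AbsoluteValue L ℝ) (hv : IsPl L v) :
    max (v c) 1 ≤ Bc r m H v *
      max (v ((dickson 1 (1 : L) (r * m) - C 2).eval (s ^ 2 / p - 2))⁻¹) 1 ^ m := by
  classical
  obtain ⟨M, _, _, _, x, y, hxy, hx, hy, hs, hpp⟩ := h.field
  have hp' : algebraMap L M p ≠ 0 := by
    rw [Ne, map_eq_zero]
    exact hp
  have hx0 : x ≠ 0 := by
    rintro rfl
    rw [zero_mul] at hpp
    exact hp' hpp.symm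
  have hy0 : y ≠ 0 := by
    rintro rfl
    rw [mul_zero] at hpp
    exact hp' hpp.symm
  have hval : algebraMap L M (((dickson 1 (1 : L) (r * m) - C 2).eval (s ^ 2 / p - 2))⁻¹) =
      (x * y) ^ (r * m) / (x ^ (r * m) - y ^ (r * m)) ^ 2 := by
    rw [map_inv₀, dickson_map, map_sub, map_div₀, map_pow, ← hs, ← hpp, map_ofNat]
    exact dickson_val hx0 hy0
  have hne : x ^ (r * m) ≠ y ^ (r * m) := by
    intro he
    rw [he, sub_self, zero_pow two_ne_zero, div_zero, map_eq_zero, inv_eq_zero] at hval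
    exact hP hval
  have hH' : (H.map (algebraMap L M)).Monic := hH.map _
  have hdeg' : (H.map (algebraMap L M)).natDegree = m := by
    rw [hH.natDegree_map, hdeg]
  by_cases hg : v ∈ nonarchAbsVal (K := L) ∧ ∀ i, v (H.coeff i) ≤ 1
  · have hB : Bc r m H v = 1 := if_pos hg
    obtain ⟨w, hw1, hw2⟩ := exists_abv_ext_nonarch L M v hg.1
    have hc : ∀ i, w ((H.map (algebraMap L M)).coeff i) ≤ 1 := by
      intro i
      rw [coeff_map, hw2]
      exact hg.2 i
    have h1 := near_nonarch w hw1 hr hm hH' hdeg' le_rfl hc hx hy hne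
    rw [← hval, hw2, hw2, one_pow, one_mul] at h1
    rw [hB, one_mul]
    exact h1
  · have hB : Bc r m H v =
        (4 * ((m * (1 + ∑ i ∈ H.support, v (H.coeff i)) + 1) * 2 ^ (r * m))) ^ (2 * (r * m)) :=
      if_neg hg
    obtain ⟨w, hw2⟩ : ∃ w : AbsoluteValue M ℝ, ∀ a : L, w (algebraMap L M a) = v a := by
      rcases hv with hv | hv
      · exact exists_abv_ext_arch L M v hv
      · obtain ⟨w, _, hw2⟩ := exists_abv_ext_nonarch L M v hv
        exact ⟨w, hw2⟩
    have hc : ∀ i, w ((H.map (algebraMap L M)).coeff i) ≤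
        1 + ∑ i ∈ H.support, v (H.coeff i) := by
      intro i
      rw [coeff_map, hw2]
      exact coef_le H v i
    have hA : (1 : ℝ) ≤ 1 + ∑ i ∈ H.support, v (H.coeff i) := by
      have : 0 ≤ ∑ i ∈ H.support, v (H.coeff i) := Finset.sum_nonneg fun _ _ => v.nonneg _
      linarith
    have h1 := near_any w hr hm hH' hdeg' hA hc hx hy hne
    rw [← hval, hw2, hw2] at h1
    rw [hB]
    exact h1

end Ht2Aux

open Ht2Aux in
/-- Q6b.  `D = r m`, `P` the polynomial `dickson 1 1 D - 2`, `F` the set of its roots.  With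
`τ = s ^ 2 / p - 2 = x / y + y / x` (`x, y` in `M`) one has
`P(τ) = (x / y) ^ D + (y / x) ^ D - 2 = (x ^ D - y ^ D) ^ 2 / (x y) ^ D`
(`dickson_one_one_eval_add_inv`), so for `τ ∉ F` we have `x ^ D ≠ y ^ D`, and `near_nonarch`,
`near_any` with `height_le_of_local` give
`h(c) ≤ m h(P(τ)⁻¹) + C = m h(P(τ)) + C`, and `h(P(τ)) ≤ C1 h(τ) + C2` for any fixed polynomial. -/
theorem ht_lower (L : Type u) [Field L] [NumberField L] {r m : ℕ} (hr : 2 ≤ r) (hm : 1 ≤ m)
    {H : L[X]} (hH : H.Monic) (hdeg : H.natDegree = m) :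
    ∃ (a C : ℝ) (F : Finset L), 0 < a ∧ ∀ c s p : L, QPair r H c s p → p ≠ 0 →
      s ^ 2 / p - 2 ∉ F → a * logHeight₁ c ≤ logHeight₁ (s ^ 2 / p - 2) + C := by
  classical
  obtain ⟨P, hPd⟩ : ∃ P : L[X], P = dickson 1 (1 : L) (r * m) - C 2 := ⟨_, rfl⟩
  have hP0 : P ≠ 0 := by
    rw [hPd]
    exact dickson_ne L (by positivity)
  obtain ⟨C1, C2, hC1, hC⟩ := eval_le L P
  obtain ⟨C3, hC3⟩ := height_le_of_local L (Bc r m H) (Bc_ok r m H)
  have hm' : (0 : ℝ) < m := by exact_mod_cast hm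
  have hK : 0 < (m : ℝ) * C1 + 1 := by positivity
  refine ⟨(m * C1 + 1)⁻¹, (m * C1 + 1)⁻¹ * (m * C2 + C3), P.roots.toFinset,
    inv_pos.2 hK, ?_⟩
  intro c s p hq hp hF
  have hPτ : P.eval (s ^ 2 / p - 2) ≠ 0 := by
    intro h0
    apply hF
    rw [Multiset.mem_toFinset, mem_roots hP0]
    exact h0
  have hPτ' := hPτ
  rw [hPd] at hPτ'
  have h1 := hC3 Unit c (fun _ => (P.eval (s ^ 2 / p - 2))⁻¹) m (by
    intro v hv
    rw [Fintype.prod_unique, hPd]
    exact local_est L hr hm hH hdeg hq hp hPτ' v hv)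
  rw [Fintype.sum_unique, logHeight₁_inv] at h1
  have h2 := hC (s ^ 2 / p - 2)
  have h3 : 0 ≤ logHeight₁ (s ^ 2 / p - 2) := zero_le_logHeight₁ _
  have h4 : logHeight₁ c ≤ (m * C1 + 1) * logHeight₁ (s ^ 2 / p - 2) + (m * C2 + C3) := by
    have := mul_le_mul_of_nonneg_left h2 hm'.le
    linarith
  have h5 := mul_le_mul_of_nonneg_left h4 (inv_pos.2 hK).le
  rw [mul_add, ← mul_assoc, inv_mul_cancel₀ hK.ne', one_mul] at h5
  exact h5

end UBQ
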