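import Pool.Agent.UBQ.Defs
import Pool.Agent.UBC.LocPer

/-!
# Valuations of the linear forms, and descent
-/

set_option autoImplicit false

namespace UBQ

open WithZero Polynomial UBC

/-- Q3a. places where `c` is integral (this is `LocPerAux.good`; `LocPerAux.form_ne`) -/
theorem forms_good {M : Type*} [Field M] (w : Valuation M ℤᵐ⁰) {r m : ℕ} (hr : 2 ≤ r)
    (hm : 1 ≤ m) {ζ0 : M} (hζ0 : IsPrimitiveRoot ζ0 r)
    {H : M[X]} (hH : H.Monic) (hdeg : H.natDegree = m) (hint : ∀ i, w (H.coeff i) ≤ 1) {c : M}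
    (hc : w c ≤ 1) {x y : M} (hx : PerPt (fam r H c) x) (hy : PerPt (fam r H c) y) (hxy : x ≠ y)
    {ζ : M} (hζ : ζ ^ r = 1) (hζ1 : ζ ≠ 1) :
    w (x - ζ * y) = 1 :=
  LocPerAux.good w hr hm hζ0 hH hdeg hint hx hy hxy hc hζ hζ1

open LocPerAux in
/-- Q3b. places where `c` is not integral: the proof of `LocPerAux.bad`, with `γ = w x`
(copy it; `LocPerAux.per_pow` gives the first statement) -/
theorem forms_bad {M : Type*} [Field M] (w : Valuation M ℤᵐ⁰) {r m : ℕ} (hr : 2 ≤ r)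
    (hm : 1 ≤ m) (hw : w ((r * m : ℕ) : M) = 1)
    {H : M[X]} (hH : H.Monic) (hdeg : H.natDegree = m) (hint : ∀ i, w (H.coeff i) ≤ 1) {c : M}
    (hc : 1 < w c) {x y : M} (hx : PerPt (fam r H c) x) (hy : PerPt (fam r H c) y)
    (hxy : x ≠ y) :
    w x ≠ 0 ∧ w x ^ (r * m) = w c ∧ w y = w x ∧ ∀ ζ : M, ζ ^ r = 1 →
      ∃ e : ℕ, (w x ^ (r * m - 1)) ^ e * w (x - ζ * y) = w x := by
  have hr0 : r ≠ 0 := by omega
  have hrm : 2 ≤ r * m := by nlinarith
  obtain ⟨hvr, hvm⟩ := v_rm w hw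
  obtain ⟨γ, hγ⟩ : ∃ γ, w x = γ := ⟨_, rfl⟩
  have hγc : γ ^ (r * m) = w c := by rw [← hγ]; exact per_pow w hr hm hH hdeg hint hx hc
  have hγ1 : 1 < γ := by
    by_contra hh
    push Not at hh
    exact absurd (hc.trans_le (hγc ▸ pow_le_one₀ zero_le hh)) (lt_irrefl _)
  have hγ0 : γ ≠ 0 := (zero_lt_one.trans hγ1).ne'
  have hval : ∀ z, PerPt (fam r H c) z → w z = γ := by
    intro z hz
    have h1 := per_pow w hr hm hH hdeg hint hz hc
    rw [← hγc] at h1
    exact (pow_left_inj₀ zero_le zero_le (by omega)).1 h1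
  have hle : ∀ a b ζ : M, w a = γ → w b = γ → ζ ^ r = 1 → w (a - ζ * b) ≤ γ := by
    intro a b ζ ha hb hζ
    refine (Valuation.map_sub w _ _).trans (max_le ha.le ?_)
    rw [map_mul, v_zeta w hr0 hζ, one_mul]
    exact hb.le
  -- one step
  have hstep : ∀ a b ζ : M, w a = γ → w b = γ → ζ ^ r = 1 → w (a - ζ * b) < γ →
      w (fam r H c a - fam r H c b) = γ ^ (r * m - 1) * w (a - ζ * b) := by
    intro a b ζ ha hb hζ hlt
    have h1 : w (a ^ r - b ^ r) = γ ^ (r - 1) * w (a - ζ * b) := by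
      have h2 := PowCyc.G_mul r a (ζ * b)
      rw [mul_pow, hζ, one_mul] at h2
      rw [← h2, map_mul, PowCyc.Loc_close w hr hvr ha hγ0 hlt]
    have h2 : w (a ^ r - b ^ r) < γ ^ r := by
      rw [h1]
      have : γ ^ r = γ ^ (r - 1) * γ := by rw [← pow_succ]; congr 1; omega
      rw [this]
      exact mul_lt_mul_of_pos_left hlt (pow_pos (zero_lt_one.trans hγ1) _)
    have h3 : w (Q H m (a ^ r) (b ^ r)) = (γ ^ r) ^ (m - 1) :=
      Q_close w hm hvm hH hdeg hint (by rw [map_pow, ha]) (by rw [map_pow, hb])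
        (one_lt_pow₀ hγ1 hr0) h2
    rw [fam_sub hdeg, map_mul, h3, h1, ← mul_assoc, ← pow_mul, ← pow_add]
    congr 2
    obtain ⟨m', rfl⟩ : ∃ m', m = m' + 1 := ⟨m - 1, by omega⟩
    rw [Nat.add_sub_cancel, Nat.mul_succ]
    omega
  set n := r * m - 1 with hn
  have hn1 : 1 < γ ^ n := one_lt_pow₀ hγ1 (by omega)
  have hvx : ∀ i, w ((fam r H c)^[i] x) = γ := fun i => hval _ (per_iter hx i)
  have hvy : ∀ i, w ((fam r H c)^[i] y) = γ := fun i => hval _ (per_iter hy i)
  have hD : ∀ i, w ((fam r H c)^[i] x - (fam r H c)^[i] y) < γ →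
      w ((fam r H c)^[i + 1] x - (fam r H c)^[i + 1] y) =
        γ ^ n * w ((fam r H c)^[i] x - (fam r H c)^[i] y) := by
    intro i hi
    have := hstep _ _ 1 (hvx i) (hvy i) (one_pow r) (by rwa [one_mul])
    rw [one_mul] at this
    rw [Function.iterate_succ_apply', Function.iterate_succ_apply', this]
  have hDle : ∀ i, w ((fam r H c)^[i] x - (fam r H c)^[i] y) ≤ γ := by
    intro i
    have := hle _ _ 1 (hvx i) (hvy i) (one_pow r)
    rwa [one_mul] at this
  obtain ⟨L, hL, hper⟩ := common hx hy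
  have hreach : ∀ i, ∃ a : ℕ, (γ ^ n) ^ a * w ((fam r H c)^[i] x - (fam r H c)^[i] y) = γ := by
    intro i
    have hex : ∃ k, ¬ w ((fam r H c)^[i + k] x - (fam r H c)^[i + k] y) < γ := by
      by_contra hno
      push Not at hno
      have h1 : ∀ k, w ((fam r H c)^[i + k] x - (fam r H c)^[i + k] y) =
          (γ ^ n) ^ k * w ((fam r H c)^[i] x - (fam r H c)^[i] y) := by
        intro k
        induction k with
        | zero => simp
        | succ k ih =>
          rw [← add_assoc, hD _ (hno k), ih, pow_succ', mul_assoc]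
      have h2 := h1 L
      rw [(hper i).1, (hper i).2] at h2
      have h3 : w ((fam r H c)^[i] x - (fam r H c)^[i] y) ≠ 0 :=
        (Valuation.ne_zero_iff w).2 (D_ne hx hy hxy i)
      have h4 : (γ ^ n) ^ L = 1 :=
        mul_right_cancel₀ h3 (by rw [← h2, one_mul])
      exact absurd h4 (one_lt_pow₀ hn1 hL.ne').ne'
    classical
    refine ⟨Nat.find hex, ?_⟩
    have h1 : ∀ k, k ≤ Nat.find hex → w ((fam r H c)^[i + k] x - (fam r H c)^[i + k] y) =
          (γ ^ n) ^ k * w ((fam r H c)^[i] x - (fam r H c)^[i] y) := by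
      intro k
      induction k with
      | zero => intro _; simp
      | succ k ih =>
        intro hk
        have h2 := Nat.find_min hex (m := k) (by omega)
        rw [not_not] at h2
        rw [← add_assoc, hD _ h2, ih (by omega), pow_succ', mul_assoc]
    rw [← h1 _ le_rfl]
    exact le_antisymm (hDle _) (not_lt.1 (Nat.find_spec hex))
  rw [hγ]
  refine ⟨hγ0, hγc, hval y hy, fun ζ hζ => ?_⟩
  rcases (hle x y ζ hγ (hval y hy) hζ).eq_or_lt with h | h
  · exact ⟨0, by rw [pow_zero, one_mul, h]⟩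
  · obtain ⟨a, ha⟩ := hreach 1
    refine ⟨a + 1, ?_⟩
    rw [Function.iterate_one, hstep x y ζ hγ (hval y hy) hζ h] at ha
    rw [pow_succ, mul_assoc]
    exact ha

namespace LocalAux

lemma pow_aux {G : Type*} [CommMonoid G] (C U g : G) (e n a b : ℕ) (h1 : g ^ (n + 1) = C ^ e)
    (h2 : (g ^ n) ^ a * U ^ e = (g ^ n) ^ b) :
    (U * (C ^ a * U) ^ n) ^ e = ((C ^ b) ^ n) ^ e := by
  calc (U * (C ^ a * U) ^ n) ^ e = (C ^ e) ^ (n * a) * (U ^ e) ^ (n + 1) := by
        simp only [mul_pow, ← pow_mul]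
        rw [mul_left_comm, ← pow_add]
        congr 2 <;> ring
    _ = ((g ^ n) ^ a * U ^ e) ^ (n + 1) := by
        rw [← h1, mul_pow]
        simp only [← pow_mul]
        congr 2
        ring
    _ = (C ^ e) ^ (n * b) := by
        rw [h2, ← h1]
        simp only [← pow_mul]
        congr 1
        ring
    _ = ((C ^ b) ^ n) ^ e := by
        simp only [← pow_mul]
        congr 1
        ring

end LocalAux

/-- Q3c. descent to the smaller field -/
theorem descent {K M : Type*} [Field K] [Field M] [Algebra K M] (v : Valuation K ℤᵐ⁰)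
    (w : Valuation M ℤᵐ⁰) {e : ℕ} (he : e ≠ 0) (hvw : ∀ a, w (algebraMap K M a) = v a ^ e)
    {n : ℕ} {c u : K} (hu : u ≠ 0) {γ : ℤᵐ⁰} (hγ : γ ≠ 0)
    (hγc : γ ^ (n + 1) = w (algebraMap K M c)) {a b : ℕ}
    (h : (γ ^ n) ^ a * w (algebraMap K M u) = (γ ^ n) ^ b) : ∃ δ : ℤᵐ⁰, v u = δ ^ n := by
  rw [hvw] at hγc h
  have hc0 : v c ≠ 0 := by
    intro h0
    rw [h0, zero_pow he] at hγc
    exact pow_ne_zero _ hγ hγc
  have hu0 : v u ≠ 0 := (Valuation.ne_zero_iff v).2 hu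
  refine ⟨v c ^ b / (v c ^ a * v u), ?_⟩
  have hA : (v c ^ a * v u) ^ n ≠ 0 := pow_ne_zero _ (mul_ne_zero (pow_ne_zero _ hc0) hu0)
  rw [div_pow, eq_div_iff hA]
  exact (pow_left_inj₀ zero_le zero_le he).1
    (LocalAux.pow_aux (v c) (v u) γ e n a b hγc h)

end UBQ
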