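import Pool.Agent.UBQ.ValExt
import Pool.Agent.UBQ.Pair
import Pool.Agent.UBQ.Local

/-!
# Selmer condition for two pairs with the same value of `s ^ 2 / p`
-/

set_option autoImplicit false

universe u

namespace UBQ

open NumberField IsDedekindDomain Polynomial UBC

namespace Sel2Aux

open WithZero

/-- images of distinct periodic points are distinct -/
lemma pow_ne {M : Type*} [Field M] {r : ℕ} {H : M[X]} {c x y : M} (hx : PerPt (fam r H c) x)
    (hy : PerPt (fam r H c) y) (hxy : x ≠ y) : x ^ r ≠ y ^ r := by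
  intro h
  have h1 := LocPerAux.D_ne hx hy hxy 1
  apply h1
  simp only [Function.iterate_one, fam, h, sub_self]

lemma form_ne {M : Type*} [Field M] {r : ℕ} {H : M[X]} {c x y : M} (hx : PerPt (fam r H c) x)
    (hy : PerPt (fam r H c) y) (hxy : x ≠ y) {ζ : M} (hζ : ζ ^ r = 1) : x - ζ * y ≠ 0 := by
  intro h
  apply pow_ne hx hy hxy
  rw [sub_eq_zero.1 h, mul_pow, hζ, one_mul]

/-- values of `g` at the places -/
def Vals {K M : Type*} [Field K] [Field M] [Algebra K M] (r m : ℕ) (c : K) (x : M) (j : ℕ)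
    (g : M) (w : Valuation M ℤᵐ⁰) : Prop :=
  (w (algebraMap K M c) ≤ 1 → w g = 1) ∧
    (1 < w (algebraMap K M c) → ∃ e : ℕ, (w x ^ (r * m - 1)) ^ e * w g = w x ^ j)

lemma vals_mul {K M : Type*} [Field K] [Field M] [Algebra K M] {r m : ℕ} {c : K} {x : M}
    {j j' : ℕ} {g g' : M} {w : Valuation M ℤᵐ⁰} (h : Vals r m c x j g w)
    (h' : Vals r m c x j' g' w) : Vals r m c x (j + j') (g * g') w := by
  constructor
  · intro hc
    rw [map_mul, h.1 hc, h'.1 hc, one_mul]
  · intro hc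
    obtain ⟨a, ha⟩ := h.2 hc
    obtain ⟨b, hb⟩ := h'.2 hc
    refine ⟨a + b, ?_⟩
    rw [map_mul, pow_add (w x ^ (r * m - 1)), pow_add (w x), ← ha, ← hb]
    exact mul_mul_mul_comm _ _ _ _

/-- the general argument -/
lemma finish {K : Type u} {M : Type u} [Field K] [NumberField K] [Field M] [NumberField M]
    [Algebra K M] {r m : ℕ} (hr : 2 ≤ r) (hm : 1 ≤ m) {H : K[X]} (hH : H.Monic)
    (hdeg : H.natDegree = m) {c : K} {x z : M}
    (hx : PerPt (fam r (H.map (algebraMap K M)) (algebraMap K M c)) x)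
    (hz : PerPt (fam r (H.map (algebraMap K M)) (algebraMap K M c)) z) (hxz : x ≠ z)
    {j : ℕ} {g g' D : M} (hD : D ≠ 0) (hg : g ≠ 0) (hg' : g' ≠ 0)
    (hvals : ∀ w : Valuation M ℤᵐ⁰, w ((r * m : ℕ) : M) = 1 →
      (∀ i, w ((H.map (algebraMap K M)).coeff i) ≤ 1) → Vals r m c x j g w ∧ Vals r m c x j g' w)
    {a a' : K} (ha : algebraMap K M a * D = g) (ha' : algebraMap K M a' * D = g') :
    a ≠ 0 ∧ Sel (r * m - 1) (badPl r m H) (a / a') := by
  have hrm : 2 ≤ r * m := by nlinarith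
  have hinj := (algebraMap K M).injective
  have ha0 : a ≠ 0 := by
    rintro rfl
    rw [map_zero, zero_mul] at ha
    exact hg ha.symm
  have ha'0 : a' ≠ 0 := by
    rintro rfl
    rw [map_zero, zero_mul] at ha'
    exact hg' ha'.symm
  refine ⟨ha0, div_ne_zero ha0 ha'0, fun v hv => ?_⟩
  have hv1 : v.valuation K ((r * m : ℕ) : K) = 1 := by
    by_contra h
    exact hv (Or.inl h)
  have hv2 : ∀ i, v.valuation K (H.coeff i) ≤ 1 := by
    intro i
    by_contra h
    exact hv (Or.inr ⟨i, not_le.1 h⟩)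
  obtain ⟨w, e, he, hvw⟩ := exists_val_ext K M v
  have hw1 : w ((r * m : ℕ) : M) = 1 := by
    rw [← map_natCast (algebraMap K M), hvw, hv1, one_pow]
  have hw2 : ∀ i, w ((H.map (algebraMap K M)).coeff i) ≤ 1 := by
    intro i
    rw [coeff_map, hvw]
    exact pow_le_one₀ zero_le (hv2 i)
  obtain ⟨V, V'⟩ := hvals w hw1 hw2
  have hwD : w D ≠ 0 := (Valuation.ne_zero_iff w).2 hD
  have hwg' : w g' ≠ 0 := (Valuation.ne_zero_iff w).2 hg'
  have hratio : w (algebraMap K M (a / a')) = w g / w g' := by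
    rw [map_div₀, map_div₀, ← ha, ← ha', map_mul, map_mul, mul_div_mul_right _ _ hwD]
  rcases le_or_gt (w (algebraMap K M c)) 1 with hc | hc
  · refine ⟨1, ?_⟩
    rw [V.1 hc, V'.1 hc, div_one, hvw] at hratio
    rw [one_pow]
    exact (pow_eq_one_iff_of_nonneg zero_le he).mp hratio
  · obtain ⟨b, hb⟩ := V.2 hc
    obtain ⟨b', hb'⟩ := V'.2 hc
    obtain ⟨h1, h2, h3, h4⟩ := forms_bad w hr hm hw1 (hH.map (algebraMap K M))
      (by rw [hH.natDegree_map, hdeg]) hw2 hc hx hz hxz
    refine descent (v.valuation K) w he hvw (n := r * m - 1) (c := c) (div_ne_zero ha0 ha'0) h1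
      (by rw [Nat.sub_add_cancel (by omega)]; exact h2) (a := b) (b := b') ?_
    rw [hratio, ← mul_div_assoc, hb, ← hb', mul_div_cancel_right₀ _ hwg']

/-- values of the forms -/
lemma vals_form {K : Type u} {M : Type u} [Field K] [Field M]
    [Algebra K M] {r m : ℕ} (hr : 2 ≤ r) (hm : 1 ≤ m) {ζ0 : K} (hζ0 : IsPrimitiveRoot ζ0 r)
    {H : K[X]} (hH : H.Monic)
    (hdeg : H.natDegree = m) {c : K} {x z : M}
    (hx : PerPt (fam r (H.map (algebraMap K M)) (algebraMap K M c)) x)
    (hz : PerPt (fam r (H.map (algebraMap K M)) (algebraMap K M c)) z) (hxz : z ≠ x)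
    {ζ : K} (hζ : ζ ^ r = 1) (hζ1 : ζ ≠ 1) (w : Valuation M ℤᵐ⁰) (hw1 : w ((r * m : ℕ) : M) = 1)
    (hw2 : ∀ i, w ((H.map (algebraMap K M)).coeff i) ≤ 1) :
    Vals r m c x 1 (z - algebraMap K M ζ * x) w := by
  have hinj := (algebraMap K M).injective
  have hζM : (algebraMap K M ζ) ^ r = 1 := by rw [← map_pow, hζ, map_one]
  have hζM1 : algebraMap K M ζ ≠ 1 := by
    intro h
    apply hζ1
    apply hinj
    rw [h, map_one]
  have hdeg' : (H.map (algebraMap K M)).natDegree = m := by rw [hH.natDegree_map, hdeg]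
  constructor
  · intro hc
    exact forms_good w hr hm (hζ0.map_of_injective hinj) (hH.map _) hdeg' hw2 hc hz hx hxz hζM hζM1
  · intro hc
    obtain ⟨h1, h2, h3, h4⟩ := forms_bad w hr hm hw1 (hH.map (algebraMap K M)) hdeg' hw2 hc hz hx
      hxz
    obtain ⟨e, he⟩ := h4 _ hζM
    refine ⟨e, ?_⟩
    rw [h3, he, pow_one]

end Sel2Aux

/-- Q4c. Take `x, y, x', y'` in a number field `M` (`QPair.field₂`).

Case `s ≠ 0` (then `s' ≠ 0`): put `lam = s' / s`; then `p' = lam ^ 2 p` and
`(x' - lam x) (x' - lam y) = 0`; exchanging `x` and `y` we have `x' = lam x` and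
`lam - ζ = (x' - ζ x) / x`.

Case `s = 0` (then `s' = 0`, `y = -x`, `y' = -x'`): `r` is odd, since `x` and `-x` have different
images; put `ρ = p' / p = (x' / x) ^ 2`; for `ζ ^ r = 1`, `ζ ≠ 1` let `ξ = ζ ^ ((r + 1) / 2)`, so
`ξ ^ 2 = ζ`; then `ρ - ζ = - (x' - ξ x) (y' - ξ x) / x ^ 2`.

The differences `x' - ζ x` etc. of two distinct periodic points (of `M`) are treated with
`forms_good`, `forms_bad`, the result is brought down to `K` with `exists_val_ext` and `descent`. -/
theorem key_sel {K : Type u} [Field K] [NumberField K] {r m : ℕ} (hr : 2 ≤ r) (hm : 1 ≤ m)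
    {ζ0 : K} (hζ0 : IsPrimitiveRoot ζ0 r) {H : K[X]} (hH : H.Monic) (hdeg : H.natDegree = m)
    {c s p s' p' : K} (h : QPair r H c s p) (h' : QPair r H c s' p') (hp : p ≠ 0) (hp' : p' ≠ 0)
    (hτ : s ^ 2 / p = s' ^ 2 / p') (hne : key s' p' ≠ key s p) :
    key s' p' / key s p ∈ TSet K r (r * m - 1) (badPl r m H) := by
  classical
  obtain ⟨M, _, _, _, x, y, x', y', ⟨hxy, hx, hy, hs, hpxy⟩, ⟨hxy', hx', hy', hs', hp'xy⟩⟩ :=
    h.field₂ h'
  have hinj := (algebraMap K M).injective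
  have hpM : algebraMap K M p ≠ 0 := (_root_.map_ne_zero _).2 hp
  have hpM' : algebraMap K M p' ≠ 0 := (_root_.map_ne_zero _).2 hp'
  have hx0 : x ≠ 0 := by
    rintro rfl
    rw [zero_mul] at hpxy
    exact hpM hpxy.symm
  have hy0 : y ≠ 0 := by
    rintro rfl
    rw [mul_zero] at hpxy
    exact hpM hpxy.symm
  have hcross : s ^ 2 * p' = s' ^ 2 * p := by rwa [div_eq_div_iff hp hp'] at hτ
  intro ζ ζ' hζ hζ1 hζ' hζ'1
  by_cases hs0 : s = 0
  · -- `y = - x`
    have hs'0 : s' = 0 := by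
      rw [hs0, zero_pow two_ne_zero, zero_mul] at hcross
      exact (pow_eq_zero_iff two_ne_zero).1
        ((mul_eq_zero.1 hcross.symm).resolve_right hp)
    have hk : key s p = p := by simp [key, hs0]
    have hk' : key s' p' = p' := by simp [key, hs'0]
    rw [hk, hk'] at hne ⊢
    rw [hs0, map_zero] at hs
    rw [hs'0, map_zero] at hs'
    have hyx : y = -x := eq_neg_of_add_eq_zero_right hs
    have hyx' : y' = -x' := eq_neg_of_add_eq_zero_right hs'
    have hP : algebraMap K M p = -(x * x) := by rw [← hpxy, hyx, mul_neg]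
    have hP' : algebraMap K M p' = -(x' * x') := by rw [← hp'xy, hyx', mul_neg]
    have hxx' : x' ≠ x := by
      rintro rfl
      apply hne
      apply hinj
      rw [hP, hP']
    have hy'x : y' ≠ x := by
      intro hh
      apply hne
      apply hinj
      rw [hP, hP', ← hh, hyx', neg_mul_neg]
    have hodd : ¬ Even r := by
      intro hev
      apply Sel2Aux.pow_ne hx hy hxy
      rw [hyx, hev.neg_pow]
    obtain ⟨k, hk2⟩ : ∃ k, r = 2 * k + 1 := by
      rcases Nat.even_or_odd r with h1 | h1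
      · exact absurd h1 hodd
      · exact h1
    -- square roots of the roots of unity
    have hroot : ∀ z : K, z ^ r = 1 → z ≠ 1 →
        ∃ ξ : K, ξ ^ 2 = z ∧ ξ ^ r = 1 ∧ ξ ≠ 1 := by
      intro z hz hz1
      have h1 : (z ^ (k + 1)) ^ 2 = z := by
        calc (z ^ (k + 1)) ^ 2 = z ^ (2 * k + 1) * z := by ring
          _ = z := by rw [← hk2, hz, one_mul]
      refine ⟨z ^ (k + 1), h1, ?_, ?_⟩
      · rw [← pow_mul, mul_comm, pow_mul, hz, one_pow]
      · intro h2
        apply hz1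
        rw [← h1, h2, one_pow]
    obtain ⟨ξ, hξ2, hξ, hξ1⟩ := hroot ζ hζ hζ1
    obtain ⟨ξ', hξ'2, hξ', hξ'1⟩ := hroot ζ' hζ' hζ'1
    have hform : ∀ z : K, z ^ r = 1 → (algebraMap K M z) ^ r = 1 := fun z hz => by
      rw [← map_pow, hz, map_one]
    have key1 : ∀ z : K, algebraMap K M (p' / p - z ^ 2) * (-(x * x)) =
        (x' - algebraMap K M z * x) * (y' - algebraMap K M z * x) := by
      intro z
      rw [map_sub, map_div₀, hP, hP', map_pow, hyx']
      have : x * x ≠ 0 := mul_ne_zero hx0 hx0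
      field_simp
      ring
    have hfin := Sel2Aux.finish (K := K) (M := M) hr hm hH hdeg hx hx' (Ne.symm hxx')
      (j := 1 + 1) (D := -(x * x)) (neg_ne_zero.2 (mul_ne_zero hx0 hx0))
      (mul_ne_zero (Sel2Aux.form_ne hx' hx hxx' (hform ξ hξ))
        (Sel2Aux.form_ne hy' hx hy'x (hform ξ hξ)))
      (mul_ne_zero (Sel2Aux.form_ne hx' hx hxx' (hform ξ' hξ'))
        (Sel2Aux.form_ne hy' hx hy'x (hform ξ' hξ')))
      (fun w hw1 hw2 => ⟨Sel2Aux.vals_mul
          (Sel2Aux.vals_form hr hm hζ0 hH hdeg hx hx' hxx' hξ hξ1 w hw1 hw2)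
          (Sel2Aux.vals_form hr hm hζ0 hH hdeg hx hy' hy'x hξ hξ1 w hw1 hw2),
        Sel2Aux.vals_mul
          (Sel2Aux.vals_form hr hm hζ0 hH hdeg hx hx' hxx' hξ' hξ'1 w hw1 hw2)
          (Sel2Aux.vals_form hr hm hζ0 hH hdeg hx hy' hy'x hξ' hξ'1 w hw1 hw2)⟩)
      (key1 ξ) (key1 ξ')
    rw [hξ2, hξ'2] at hfin
    exact ⟨sub_ne_zero.1 hfin.1, hfin.2⟩
  · have hs'0 : s' ≠ 0 := by
      rintro rfl
      rw [zero_pow two_ne_zero, zero_mul] at hcross
      exact (mul_ne_zero (pow_ne_zero 2 hs0) hp') hcross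
    have hk : key s p = s := by simp [key, hs0]
    have hk' : key s' p' = s' := by simp [key, hs'0]
    rw [hk, hk'] at hne ⊢
    set lam := s' / s with hlam
    have hlam1 : lam ≠ 1 := by
      intro h1
      apply hne
      rw [hlam, div_eq_one_iff_eq hs0] at h1
      exact h1
    have hs'l : s' = lam * s := by rw [hlam, div_mul_cancel₀ _ hs0]
    have hp'l : p' = lam ^ 2 * p := by
      rw [hs'l] at hcross
      have h2 : s ^ 2 ≠ 0 := pow_ne_zero 2 hs0
      apply mul_left_cancel₀ h2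
      rw [hcross]
      ring
    have hroot : (x' - algebraMap K M lam * x) * (x' - algebraMap K M lam * y) = 0 := by
      have e1 : x' + y' = algebraMap K M lam * (x + y) := by rw [hs', hs, hs'l, map_mul]
      have e2 : x' * y' = (algebraMap K M lam) ^ 2 * (x * y) := by
        rw [hp'xy, hpxy, hp'l, map_mul, map_pow]
      have e3 : y' = algebraMap K M lam * (x + y) - x' := by rw [← e1]; ring
      rw [e3] at e2
      linear_combination -e2
    have hform : ∀ z : K, z ^ r = 1 → (algebraMap K M z) ^ r = 1 := fun z hz => by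
      rw [← map_pow, hz, map_one]
    -- the argument for a point `a` of the first pair
    have main : ∀ a : M, a ≠ 0 →
        PerPt (fam r (H.map (algebraMap K M)) (algebraMap K M c)) a →
        x' - algebraMap K M lam * a = 0 →
        lam ≠ ζ ∧ Sel (r * m - 1) (badPl r m H) ((lam - ζ) / (lam - ζ')) := by
      intro a ha0 ha hxa
      have hx'a : x' = algebraMap K M lam * a := sub_eq_zero.1 hxa
      have hne' : x' ≠ a := by
        intro hh
        apply hlam1
        apply hinj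
        rw [map_one]
        apply mul_right_cancel₀ ha0
        rw [one_mul, ← hx'a, hh]
      have key1 : ∀ z : K, algebraMap K M (lam - z) * a = x' - algebraMap K M z * a := by
        intro z
        rw [map_sub, sub_mul, hx'a]
      have hfin := Sel2Aux.finish (K := K) (M := M) hr hm hH hdeg ha hx' (Ne.symm hne')
        (j := 1) (D := a) ha0
        (Sel2Aux.form_ne hx' ha hne' (hform ζ hζ))
        (Sel2Aux.form_ne hx' ha hne' (hform ζ' hζ'))
        (fun w hw1 hw2 => ⟨Sel2Aux.vals_form hr hm hζ0 hH hdeg ha hx' hne' hζ hζ1 w hw1 hw2,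
          Sel2Aux.vals_form hr hm hζ0 hH hdeg ha hx' hne' hζ' hζ'1 w hw1 hw2⟩)
        (key1 ζ) (key1 ζ')
      exact ⟨sub_ne_zero.1 hfin.1, hfin.2⟩
    rcases mul_eq_zero.1 hroot with h1 | h1
    · exact main x hx0 hx h1
    · exact main y hy0 hy h1

/-- Q4d. the key is injective -/
theorem key_inj {K : Type*} [Field K] {s p s' p' : K} (hp : p ≠ 0) (hp' : p' ≠ 0)
    (hτ : s ^ 2 / p = s' ^ 2 / p') (hkey : key s p = key s' p') : s = s' ∧ p = p' := by
  classical
  have hcross : s ^ 2 * p' = s' ^ 2 * p := by rwa [div_eq_div_iff hp hp'] at hτ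
  by_cases hs0 : s = 0
  · have hs'0 : s' = 0 := by
      rw [hs0, zero_pow two_ne_zero, zero_mul] at hcross
      exact (pow_eq_zero_iff two_ne_zero).1
        ((mul_eq_zero.1 hcross.symm).resolve_right hp)
    refine ⟨by rw [hs0, hs'0], ?_⟩
    simpa [key, hs0, hs'0] using hkey
  · have hs'0 : s' ≠ 0 := by
      rintro rfl
      rw [zero_pow two_ne_zero, zero_mul] at hcross
      exact (mul_ne_zero (pow_ne_zero 2 hs0) hp') hcross
    have hss : s = s' := by simpa [key, hs0, hs'0] using hkey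
    refine ⟨hss, ?_⟩
    rw [← hss] at hcross
    exact (mul_left_cancel₀ (pow_ne_zero 2 hs0) hcross).symm

/-- Q4e. -/
theorem key_ne {K : Type*} [Field K] {s p : K} (hp : p ≠ 0) : key s p ≠ 0 := by
  unfold key
  split_ifs with h
  · exact hp
  · exact h

end UBQ
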