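import Pool.Agent.UBQ.Tau
import Pool.Agent.UBQ.Sel2
import Pool.Agent.UBC.FinalPerS
import Pool.Agent.UBC.Metric

/-!
# A bounded number of pairs
-/

set_option autoImplicit false

universe u

namespace UBQ

open Height NumberField IsDedekindDomain Polynomial UBC

namespace PairsAux

theorem fam_map {K E : Type*} [Field K] [Field E] [Algebra K E] (r : ℕ) (H : K[X]) (c z : K) :
    fam r (H.map (algebraMap K E)) (algebraMap K E c) (algebraMap K E z)
      = algebraMap K E (fam r H c z) := by
  unfold fam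
  rw [← map_pow, Polynomial.eval_map, Polynomial.eval₂_at_apply, map_add]

theorem iter_map {K E : Type*} [Field K] [Field E] [Algebra K E] (r : ℕ) (H : K[X]) (c z : K)
    (k : ℕ) : (fam r (H.map (algebraMap K E)) (algebraMap K E c))^[k] (algebraMap K E z)
      = algebraMap K E ((fam r H c)^[k] z) := by
  induction k generalizing z with
  | zero => rfl
  | succ k ih => rw [Function.iterate_succ_apply, Function.iterate_succ_apply, fam_map, ih]

theorem per_of_map {K E : Type*} [Field K] [Field E] [Algebra K E] {r : ℕ} {H : K[X]} {c z : K}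
    (h : PerPt (fam r (H.map (algebraMap K E)) (algebraMap K E c)) (algebraMap K E z)) :
    PerPt (fam r H c) z := by
  obtain ⟨k, hk, hz⟩ := h
  rw [iter_map] at hz
  exact ⟨k, hk, (algebraMap K E).injective hz⟩

theorem per_of_zero {K : Type*} [Field K] {r : ℕ} {H : K[X]} {c s : K} (h : QPair r H c s 0) :
    PerPt (fam r H c) s := by
  obtain ⟨x, y, -, hx, hy, hs, hp⟩ := h
  rw [map_zero, mul_eq_zero] at hp
  rcases hp with h0 | h0
  · rw [h0, zero_add] at hs
    rw [hs] at hy
    exact per_of_map hy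
  · rw [h0, add_zero] at hs
    rw [hs] at hx
    exact per_of_map hx

end PairsAux

open PairsAux

/-- Q8.  Pairs with `p = 0`: then `s` is a periodic point in `K`, `uniform_per_root` (FinalPerS) with
`S = badPl r m H` bounds their number.  Pairs with `p ≠ 0`: by `tau_bound` at most `N` values of
`s ^ 2 / p`; for a fixed value the map `key` is injective (`key_inj`) and all quotients of distinct
keys are in `TSet` (`key_sel`), which is the set of `exists_gap_roots` (FinalPer; `Cov r (r m - 1)`
holds since `r m - 1 ≥ 5`), so `metric_bound` (Metric) applies to the set of keys. -/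
theorem pairs_root (K : Type u) [Field K] [NumberField K] {r m : ℕ} (hr : 6 ≤ r) (hm : 1 ≤ m)
    {ζ0 : K} (hζ0 : IsPrimitiveRoot ζ0 r) {H : K[X]} (hH : H.Monic) (hdeg : H.natDegree = m) :
    ∃ B : ℕ, ∀ c : K, ∀ P : Finset (K × K), (∀ q ∈ P, QPair r H c q.1 q.2) → P.card ≤ B := by
  classical
  have hrm : 6 ≤ r * m := by nlinarith
  have hcov : Cov r (r * m - 1) := ⟨by omega, Or.inl (by omega)⟩
  have hS : (badPl r m H).Finite := badPl_finite (by omega) (by omega) H
  have hval : ∀ v : HeightOneSpectrum (𝓞 K), v ∉ badPl r m H →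
      v.valuation K ((r * m : ℕ) : K) = 1 ∧ ∀ i, v.valuation K (H.coeff i) ≤ 1 := by
    intro v hv
    unfold badPl at hv
    simp only [Set.mem_ofPred_eq, not_or, not_not, not_exists, not_lt] at hv
    exact hv
  obtain ⟨B0, hB0⟩ := uniform_per_root K hm hcov hζ0 (badPl r m H) hS fun v hv => (hval v hv).1
  obtain ⟨N, hN⟩ := tau_bound K hr hm hζ0 hH hdeg
  obtain ⟨L, i1, i2, i3, hgap⟩ := exists_gap_roots K hcov hζ0 (badPl r m H) hS
  obtain ⟨B1, hB1⟩ := metric_bound K L _ hgap
  refine ⟨B0 + B1 * N, fun c P hP => ?_⟩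
  have hsplit : P.card = (P.filter fun q => q.2 = 0).card + (P.filter fun q => ¬ q.2 = 0).card :=
    (Finset.card_filter_add_card_filter_not _).symm
  have h0 : (P.filter fun q => q.2 = 0).card ≤ B0 := by
    have hinj : Set.InjOn (Prod.fst : K × K → K) ((P.filter fun q => q.2 = 0 : Finset (K × K)) : Set (K × K)) := by
      intro a ha b hb hab
      rw [Finset.mem_coe, Finset.mem_filter] at ha hb
      exact Prod.ext hab (ha.2.trans hb.2.symm)
    rw [← Finset.card_image_of_injOn hinj]
    refine hB0 H hH hdeg (fun v hv => (hval v hv).2) c _ fun x hx => ?_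
    obtain ⟨q, hq, rfl⟩ := Finset.mem_image.1 hx
    rw [Finset.mem_filter] at hq
    have h := hP q hq.1
    rw [hq.2] at h
    exact per_of_zero h
  have h1 : (P.filter fun q => ¬ q.2 = 0).card ≤ B1 * N := by
    have h2 := Finset.card_le_mul_card_image (f := fun q : K × K => q.1 ^ 2 / q.2)
      (P.filter fun q => ¬ q.2 = 0) B1 ?_
    · refine h2.trans (Nat.mul_le_mul_left B1 (hN c _ fun t ht => ?_))
      obtain ⟨q, hq, rfl⟩ := Finset.mem_image.1 ht
      rw [Finset.mem_filter] at hq
      exact ⟨q.1, q.2, hP q hq.1, hq.2, rfl⟩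
    · intro t _
      set Q := (P.filter fun q => ¬ q.2 = 0).filter (fun q => q.1 ^ 2 / q.2 = t) with hQ
      have hmem : ∀ q ∈ Q, q ∈ P ∧ q.2 ≠ 0 ∧ q.1 ^ 2 / q.2 = t := by
        intro q hq
        rw [hQ, Finset.mem_filter, Finset.mem_filter] at hq
        exact ⟨hq.1.1, hq.1.2, hq.2⟩
      have hinj : Set.InjOn (fun q : K × K => key q.1 q.2) (Q : Set (K × K)) := by
        intro a ha b hb hab
        obtain ⟨-, ha2, ha3⟩ := hmem a (Finset.mem_coe.1 ha)
        obtain ⟨-, hb2, hb3⟩ := hmem b (Finset.mem_coe.1 hb)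
        obtain ⟨e1, e2⟩ := key_inj ha2 hb2 (ha3.trans hb3.symm) hab
        exact Prod.ext e1 e2
      rw [← Finset.card_image_of_injOn hinj]
      refine hB1 _ ?_ ?_
      · intro x hx
        obtain ⟨q, hq, rfl⟩ := Finset.mem_image.1 hx
        exact key_ne (hmem q hq).2.1
      · intro x hx y hy hxy
        obtain ⟨q, hq, rfl⟩ := Finset.mem_image.1 hx
        obtain ⟨q', hq', rfl⟩ := Finset.mem_image.1 hy
        obtain ⟨h3, h4, h5⟩ := hmem q hq
        obtain ⟨h3', h4', h5'⟩ := hmem q' hq'
        exact key_sel (by omega) hm hζ0 hH hdeg (hP q' h3') (hP q h3) h4' h4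
          (h5'.trans h5.symm) hxy
  omega

end UBQ
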