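import Pool.Agent.UBQ.Ht1
import Pool.Agent.UBQ.Ht2
import Pool.Agent.UBQ.Sel1
import Pool.Agent.UBC.FinalPer

/-!
# A bounded number of values of `s ^ 2 / p`
-/

set_option autoImplicit false

universe u

namespace UBQ

open Height NumberField IsDedekindDomain Polynomial UBC

/-- Q7a. -/
theorem sum_inv_inj {K : Type*} [Field K] {r : ℕ} (hr : 6 ≤ r) {ζ0 : K}
    (hζ0 : IsPrimitiveRoot ζ0 r) :
    Function.Injective (fun j : Fin 3 => ζ0 ^ ((j : ℕ) + 1) + (ζ0 ^ ((j : ℕ) + 1))⁻¹) := by
  have h0 : ζ0 ≠ 0 := hζ0.ne_zero (by omega)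
  intro i j hij
  simp only at hij
  by_contra hne
  have hne' : (i : ℕ) ≠ (j : ℕ) := fun h => hne (Fin.ext h)
  have hi := i.isLt
  have hj := j.isLt
  set a := ζ0 ^ ((i : ℕ) + 1) with ha
  set b := ζ0 ^ ((j : ℕ) + 1) with hb
  have ha0 : a ≠ 0 := pow_ne_zero _ h0
  have hb0 : b ≠ 0 := pow_ne_zero _ h0
  have h1 : (a - b) * (a * b - 1) = 0 := by
    have h2 : (a - b) * (a * b - 1) = a * b * ((a + a⁻¹) - (b + b⁻¹)) := by
      field_simp
      ring
    rw [h2, hij, sub_self, mul_zero]
  rcases mul_eq_zero.1 h1 with h2 | h2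
  · have h3 := hζ0.pow_inj (by omega : (i : ℕ) + 1 < r) (by omega : (j : ℕ) + 1 < r)
      (sub_eq_zero.1 h2)
    omega
  · have h3 : ζ0 ^ (((i : ℕ) + 1) + ((j : ℕ) + 1)) = 1 := by
      rw [pow_add]
      exact sub_eq_zero.1 h2
    exact hζ0.pow_ne_one_of_pos_of_lt (by omega) (by omega) h3

namespace TauAux

/-- the counting argument -/
theorem count (K : Type*) [Field K] (L : Type*) [Field L] [NumberField L] [Algebra K L] (T : Set K)
    (hT : Gap (fun t : K => logHeight₁ (algebraMap K L t)) T) (a C : ℝ) (ha : 0 < a)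
    (F : Finset L) :
    ∃ N : ℕ, ∀ h : ℝ, ∀ A : Finset K, (∀ t ∈ A, t ∈ T ∧
      (algebraMap K L t ∉ F → a * h ≤ logHeight₁ (algebraMap K L t) + C) ∧
      logHeight₁ (algebraMap K L t) ≤ 4 * h + C) → A.card ≤ N := by
  classical
  obtain ⟨N, H0, hN⟩ := hT (10 / a)
  set h0 : ℝ := max (2 * H0 / a) (max (2 * C / a) C) with hh0
  have hfin : {z : L | logHeight₁ z ≤ 4 * h0 + C}.Finite :=
    finite_setOfPred_logHeight₁_le L (4 * h0 + C)
  have hinj := (algebraMap K L).injective
  refine ⟨hfin.toFinset.card + (F.card + N), fun h A hA => ?_⟩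
  by_cases hh : h0 ≤ h
  · have h1 : 2 * H0 / a ≤ h := (le_max_left _ _).trans hh
    have h2 : 2 * C / a ≤ h := ((le_max_left _ _).trans (le_max_right _ _)).trans hh
    have h3 : C ≤ h := ((le_max_right _ _).trans (le_max_right _ _)).trans hh
    rw [div_le_iff₀ ha] at h1 h2
    have hc1 : (A.filter fun t => algebraMap K L t ∈ F).card ≤ F.card := by
      refine Finset.card_le_card_of_injOn (fun t => algebraMap K L t) ?_ hinj.injOn
      intro t ht
      exact (Finset.mem_filter.1 ht).2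
    have hc2 : (A.filter fun t => algebraMap K L t ∉ F).card ≤ N := by
      refine hN (a * h / 2) (by linarith) _ ?_
      intro t ht
      obtain ⟨htA, htF⟩ := Finset.mem_filter.1 ht
      obtain ⟨k1, k2, k3⟩ := hA t htA
      have k4 := k2 htF
      refine ⟨k1, by simp only; linarith, ?_⟩
      have h5 : 10 / a * (a * h / 2) = 5 * h := by
        field_simp
        ring
      simp only
      rw [h5]
      linarith
    have hc3 : A.card = (A.filter fun t => algebraMap K L t ∈ F).card +
        (A.filter fun t => algebraMap K L t ∉ F).card :=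
      (Finset.card_filter_add_card_filter_not (s := A) (fun t => algebraMap K L t ∈ F)).symm
    omega
  · push Not at hh
    have h1 : A.card ≤ hfin.toFinset.card := by
      refine Finset.card_le_card_of_injOn (fun t => algebraMap K L t) ?_ hinj.injOn
      intro t ht
      simp only [Set.Finite.coe_toFinset, Set.mem_ofPred_eq]
      have := (hA t ht).2.2
      linarith
    omega

end TauAux

/-- Q7b.  `exists_gap_fermat K (n := r m - 1) (S := badPl r m H)` with the three numbers of Q7a gives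
a field `L` and the gap property for the set of `τ = t - 2` (`tau_sel`).  In `L` (`QPair.map`; `H.map`
is monic of degree `m`) `ht_upper` and `ht_lower` give `a h(c) - C ≤ h(τ) ≤ 4 h(c) + C` unless
`τ` is one of the finitely many elements of `F`; heights are those of the images in `L`.  So if
`h(c) ≥ C1` then `h(τ)` is in `[H, lam H]` with `H = a h(c) / 2 ≥ H0` and `lam = 10 / a`, at most `N`
values; if `h(c) < C1` then `h(τ)` is bounded and `finite_setOfPred_logHeight₁_le` applies. -/
theorem tau_bound (K : Type u) [Field K] [NumberField K] {r m : ℕ} (hr : 6 ≤ r) (hm : 1 ≤ m)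
    {ζ0 : K} (hζ0 : IsPrimitiveRoot ζ0 r) {H : K[X]} (hH : H.Monic) (hdeg : H.natDegree = m) :
    ∃ N : ℕ, ∀ c : K, ∀ A : Finset K,
      (∀ t ∈ A, ∃ s p : K, QPair r H c s p ∧ p ≠ 0 ∧ t = s ^ 2 / p) → A.card ≤ N := by
  classical
  have hn : 5 ≤ r * m - 1 := by
    have : 6 * 1 ≤ r * m := Nat.mul_le_mul hr hm
    omega
  obtain ⟨L, i1, i2, i3, hL⟩ := exists_gap_fermat K hn (badPl r m H)
    (badPl_finite (by omega) (by omega) H) _ (sum_inv_inj hr hζ0)
  have hdegL : (H.map (algebraMap K L)).natDegree = m := by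
    rw [Polynomial.natDegree_map, hdeg]
  obtain ⟨C1, hC1⟩ := ht_upper L (r := r) (by omega) hm (hH.map (algebraMap K L)) hdegL
  obtain ⟨a, C2, F, ha, hC2⟩ := ht_lower L (r := r) (by omega) hm (hH.map (algebraMap K L)) hdegL
  set W : ℝ := totalWeight L * Real.log 2 with hW
  set C : ℝ := max C2 (W + 3 * C1 + logHeight₁ (2 : L)) with hC
  obtain ⟨N, hN⟩ := TauAux.count K L _ hL a C ha F
  refine ⟨N, fun c A hA => ?_⟩
  have hinj : Function.Injective (fun t : K => t - 2) := sub_left_injective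
  rw [← Finset.card_image_of_injective A hinj]
  refine hN (logHeight₁ (algebraMap K L c)) _ ?_
  intro τ hτ
  obtain ⟨t, ht, rfl⟩ := Finset.mem_image.1 hτ
  obtain ⟨s, p, hsp, hp, rfl⟩ := hA t ht
  have hQ := hsp.map (L := L)
  have hpL : algebraMap K L p ≠ 0 := by
    intro h0
    exact hp ((algebraMap K L).injective (by rw [h0, map_zero]))
  have e1 : algebraMap K L (s ^ 2 / p - 2) =
      (algebraMap K L s) ^ 2 / (algebraMap K L p) - 2 := by
    rw [map_sub, map_div₀, map_pow, map_ofNat]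
  refine ⟨?_, ?_, ?_⟩
  · intro j
    obtain ⟨a1, a2⟩ := FinalPerAux.root_spec (q := 3) hζ0 (by omega) j
    obtain ⟨b1, b2⟩ := FinalPerAux.root_spec (q := 3) hζ0 (by omega) (0 : Fin 3)
    exact tau_sel (by omega) hm hζ0 hH hdeg hsp hp a1 a2 b1 b2
  · intro hF
    rw [e1] at hF ⊢
    have h1 := hC2 _ _ _ hQ hpL hF
    have h2 : C2 ≤ C := le_max_left _ _
    linarith
  · rw [e1]
    obtain ⟨h1, h2⟩ := hC1 _ _ _ hQ
    have h3 := logHeight₁_sub_le ((algebraMap K L s) ^ 2 / (algebraMap K L p)) (2 : L)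
    have h4 : logHeight₁ ((algebraMap K L s) ^ 2 / (algebraMap K L p)) ≤
        2 * logHeight₁ (algebraMap K L s) + logHeight₁ (algebraMap K L p) := by
      have h5 := logHeight₁_mul_le ((algebraMap K L s) ^ 2) (algebraMap K L p)⁻¹
      rw [logHeight₁_inv, logHeight₁_pow, ← div_eq_mul_inv] at h5
      exact_mod_cast h5
    have h6 : W + 3 * C1 + logHeight₁ (2 : L) ≤ C := le_max_right _ _
    linarith

end UBQ
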