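import Pool.Agent.UBQ.Defs

/-!
# Extension of valuations and of absolute values
-/

set_option autoImplicit false

namespace UBQ

open Height NumberField IsDedekindDomain AdmissibleAbsValues WithZero

namespace ValExtAux

open scoped NNReal
open WithZeroMulInt

theorem exists_over (K M : Type*) [Field K] [NumberField K] [Field M] [NumberField M]
    [Algebra K M] (v : HeightOneSpectrum (𝓞 K)) :
    ∃ w : HeightOneSpectrum (𝓞 M), w.asIdeal.LiesOver v.asIdeal := by
  obtain ⟨⟨P, hP, hPv⟩⟩ := v.asIdeal.nonempty_primesOver (S := 𝓞 M)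
  refine ⟨⟨P, hP, ?_⟩, hPv⟩
  exact Ideal.ne_bot_of_liesOver_of_ne_bot v.ne_bot P

theorem exists_height_one (K M : Type*) [Field K] [NumberField K] [Field M] [NumberField M]
    [Algebra K M] (v : HeightOneSpectrum (𝓞 K)) :
    ∃ (w : HeightOneSpectrum (𝓞 M)) (e : ℕ), e ≠ 0 ∧
      ∀ a : K, w.valuation M (algebraMap K M a) = v.valuation K a ^ e := by
  obtain ⟨w, hw⟩ := exists_over K M v
  exact ⟨w, v.asIdeal.ramificationIdx' w.asIdeal,
    Ideal.IsDedekindDomain.ramificationIdx'_ne_zero_of_liesOver w.asIdeal v.ne_bot,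
    fun a => (HeightOneSpectrum.valuation_liesOver M v w a).symm⟩

theorem toNNReal_pow {b c : ℝ≥0} (hb : b ≠ 0) (hc : c ≠ 0) {e : ℕ} (he : e ≠ 0) (h : b ^ e = c)
    (m : ℤᵐ⁰) : toNNReal hb (m ^ e) = toNNReal hc m := by
  rw [map_pow]
  by_cases hm : m = 0
  · rw [toNNReal_pos_apply hb hm, toNNReal_pos_apply hc hm, zero_pow he]
  · rw [toNNReal_neg_apply hb hm, toNNReal_neg_apply hc hm, ← h, ← zpow_natCast, ← zpow_natCast,
      ← zpow_mul, ← zpow_mul, mul_comm]

end ValExtAux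

/-- Q1a. -/
theorem exists_val_ext (K M : Type*) [Field K] [NumberField K] [Field M] [NumberField M]
    [Algebra K M] (v : HeightOneSpectrum (𝓞 K)) :
    ∃ (w : Valuation M ℤᵐ⁰) (e : ℕ), e ≠ 0 ∧
      ∀ a : K, w (algebraMap K M a) = v.valuation K a ^ e := by
  obtain ⟨w, e, he, h⟩ := ValExtAux.exists_height_one K M v
  exact ⟨w.valuation M, e, he, h⟩

/-- Q1b. -/
theorem exists_abv_ext_nonarch (K M : Type*) [Field K] [NumberField K] [Field M] [NumberField M]
    [Algebra K M] (v : AbsoluteValue K ℝ) (hv : v ∈ nonarchAbsVal (K := K)) :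
    ∃ w : AbsoluteValue M ℝ, IsNonarchimedean w ∧ ∀ a : K, w (algebraMap K M a) = v a := by
  have hv' : IsFinitePlace v := hv
  obtain ⟨P, hP⟩ := hv'
  obtain ⟨w, e, he, h⟩ := ValExtAux.exists_height_one K M P
  have hc := HeightOneSpectrum.one_lt_absNorm_nnreal P
  have hb : (1 : NNReal) < ((Ideal.absNorm P.asIdeal : NNReal) ^ ((e : ℝ)⁻¹)) := by
    refine NNReal.one_lt_rpow hc ?_
    positivity
  have hbe : ((Ideal.absNorm P.asIdeal : NNReal) ^ ((e : ℝ)⁻¹)) ^ e =
      (Ideal.absNorm P.asIdeal : NNReal) := by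
    rw [← NNReal.rpow_natCast, ← NNReal.rpow_mul, inv_mul_cancel₀ (by exact_mod_cast he),
      NNReal.rpow_one]
  refine ⟨w.adicAbv hb, w.isNonarchimedean_adicAbv hb, fun a => ?_⟩
  have h1 : w.adicAbv hb (algebraMap K M a) =
      (WithZeroMulInt.toNNReal (ne_zero_of_lt hb) (w.valuation M (algebraMap K M a)) : ℝ) := rfl
  have h2 : v a = (WithZeroMulInt.toNNReal (HeightOneSpectrum.absNorm_ne_zero P)
      (P.valuation K a) : ℝ) := by
    rw [← FinitePlace.norm_embedding', ← hP]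
    rfl
  rw [h1, h2, h, ValExtAux.toNNReal_pow _ (HeightOneSpectrum.absNorm_ne_zero P) he hbe]

/-- Q1c. -/
theorem exists_abv_ext_arch (K M : Type*) [Field K] [NumberField K] [Field M] [NumberField M]
    [Algebra K M] (v : AbsoluteValue K ℝ) (hv : v ∈ archAbsVal (K := K)) :
    ∃ w : AbsoluteValue M ℝ, ∀ a : K, w (algebraMap K M a) = v a := by
  have h1 : IsInfinitePlace v := mem_multisetInfinitePlace.1 hv
  obtain ⟨u, hu⟩ := (isInfinitePlace_iff v).1 h1
  obtain ⟨w, hw⟩ := InfinitePlace.comap_surjective (K := M) u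
  refine ⟨w.val, fun a => ?_⟩
  rw [← hu, ← hw]
  rfl

end UBQ
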